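import Pool.Agent.Helper63.CV.E5h

/-! E5: the local law holds at all small scales. -/

set_option autoImplicit false

namespace Pool.Agent.Helper63.CV

open Filter Topology MeasureTheory Set
open Pool.Agent.Helper36.CV

lemma e5_pow (P ε : ℝ) (hP : 1 ≤ P) (hε : 0 < ε) (hε1 : ε ≤ 1) (h : ε ≤ (1 / P) ^ 10) :
    P * ε ≤ 1 ∧ P * ε ≤ ε ^ (4 / 5 : ℝ) ∧ P * ε ^ 2 ≤ ε ^ (19 / 10 : ℝ) := by
  have hP0 : 0 < P := by linarith
  have h1 : ε ^ (1 / 10 : ℝ) ≤ 1 / P := by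
    have h2 : ε ^ (1 / 10 : ℝ) ≤ ((1 / P) ^ 10) ^ (1 / 10 : ℝ) :=
      Real.rpow_le_rpow hε.le h (by norm_num)
    have h3 : ((1 / P) ^ 10) ^ (1 / 10 : ℝ) = 1 / P := by
      have h4 := Real.pow_rpow_inv_natCast (x := 1 / P) (n := 10) (by positivity) (by norm_num)
      have h5 : (1 / 10 : ℝ) = ((10 : ℕ) : ℝ)⁻¹ := by norm_num
      rw [h5]
      exact h4
    rw [h3] at h2
    exact h2
  have h2 : P * ε ^ (1 / 10 : ℝ) ≤ 1 := by
    rw [le_div_iff₀ hP0] at h1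
    linarith
  have h3 : P * ε ≤ ε ^ (9 / 10 : ℝ) := by
    have h4 : ε = ε ^ (1 / 10 : ℝ) * ε ^ (9 / 10 : ℝ) := by
      rw [← Real.rpow_add hε]
      norm_num
    have h5 : 0 ≤ ε ^ (9 / 10 : ℝ) := Real.rpow_nonneg hε.le _
    calc P * ε = P * ε ^ (1 / 10 : ℝ) * ε ^ (9 / 10 : ℝ) := by
          rw [mul_assoc, ← h4]
      _ ≤ 1 * ε ^ (9 / 10 : ℝ) := mul_le_mul_of_nonneg_right h2 h5
      _ = ε ^ (9 / 10 : ℝ) := one_mul _
  have h4 : P * ε ≤ ε ^ (4 / 5 : ℝ) :=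
    h3.trans (Real.rpow_le_rpow_of_exponent_ge hε hε1 (by norm_num))
  refine ⟨?_, h4, ?_⟩
  · exact h4.trans (Real.rpow_le_one hε.le hε1 (by norm_num))
  · have h5 : ε ^ (19 / 10 : ℝ) = ε ^ (9 / 10 : ℝ) * ε := by
      have h6 : ε ^ (9 / 10 : ℝ) * ε = ε ^ (9 / 10 : ℝ) * ε ^ (1 : ℝ) := by rw [Real.rpow_one]
      rw [h6, ← Real.rpow_add hε]
      norm_num
    rw [h5]
    calc P * ε ^ 2 = P * ε * ε := by ring
      _ ≤ ε ^ (9 / 10 : ℝ) * ε := mul_le_mul_of_nonneg_right h3 hε.le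

theorem st_E5 (hP1 : ST_P1) (hP2 : ST_P2) (hE1 : ST_E1) (hE2 : ST_E2) (hE3 : ST_E3)
    (hE4 : ST_E4) : ST_E5 := by
  obtain ⟨K, hK, h2⟩ := hE2
  obtain ⟨K', ε3, hK', hε3, h3⟩ := hE3
  obtain ⟨Q, hQd⟩ : ∃ Q : ℝ, Q = 8 * (K' * Real.exp (1 + K)) + 1 := ⟨_, rfl⟩
  have hQ : 1 ≤ Q := by
    rw [hQd]
    have : 0 ≤ 8 * (K' * Real.exp (1 + K)) := by positivity
    linarith
  have hQ0 : 0 < Q := by linarith
  refine ⟨6, min (min ε3 (1 / 100)) (min (1 / (12 * K)) ((1 / (400 * Q)) ^ 10)), by norm_num,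
    by positivity, ?_⟩
  intro ε Hm Hp C cd hpar hεε e
  obtain ⟨hε, hHm, _⟩ := id hpar
  have hε3' : ε ≤ ε3 := hεε.trans ((min_le_left _ _).trans (min_le_left _ _))
  have hε100 : ε ≤ 1 / 100 := hεε.trans ((min_le_left _ _).trans (min_le_right _ _))
  have hεK : ε ≤ 1 / (12 * K) := hεε.trans ((min_le_right _ _).trans (min_le_left _ _))
  have hεQ : ε ≤ (1 / (400 * Q)) ^ 10 := hεε.trans ((min_le_right _ _).trans (min_le_right _ _))
  have hKε : 12 * (K * ε) ≤ 1 := by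
    rw [le_div_iff₀ (by positivity)] at hεK
    linarith
  obtain ⟨hp1, hp2, hp3⟩ := e5_pow (400 * Q) ε (by linarith) hε (by linarith) hεQ
  obtain ⟨hv0, _⟩ := hP2 Hm Hp C cd hHm
  have hv0' : ∀ x : ℝ, 0 ≤ vf cd x := fun x => (hv0 x).1
  obtain ⟨_, _, hY, _, hN, _⟩ := hP1 Hm Hp C cd
  obtain ⟨_, hwin, hlt, _, _⟩ := hE1 Hm Hp C cd hHm
  obtain ⟨R, hR, hRδ, hLW⟩ := hwin e
  obtain ⟨h31, h32⟩ := h3 ε Hm Hp C cd hpar hε3' e R hR hRδ hLW
  have hmono : ∀ t : ℝ, e.c < t → 0 ≤ Nf cd t - e.N := fun t ht => by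
    linarith [hlt e t ht]
  obtain ⟨h21, h22⟩ := h2 ε Hm Hp C cd hHm hε hε100 e R hR hRδ (fun t ht1 ht2 => by
    have h4 := (h31 t ht1 ht2).2.2.1
    have h5 : 0 ≤ ε * (Nf cd t - e.N) := mul_nonneg hε.le (hmono t ht1)
    linarith)
  obtain ⟨h41, h42, h43⟩ := hE4 Hm Hp C cd hHm e
  have hG : GB e ε K R := h22
  have hS : SB e ε K' R := h32
  have hW : Wt e.wt := e5_wt e hv0' (fun z hz => (h41 z hz).1)
  obtain ⟨E0, hE0, hb⟩ := e5_bounds e ε K K' R hε hK hK' hKε hR hRδ hW hG hS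
  refine ⟨E0, hE0, ?_⟩
  intro E hE hEE
  obtain ⟨hER, hM, hT⟩ := hb E hE hEE
  rw [← hQd] at hM hT
  obtain ⟨z₀, hz₀⟩ : ∃ z₀ : ℂ, z₀ = (e.c : ℂ) + (E : ℂ) * Complex.I := ⟨_, rfl⟩
  have hz₀r : z₀.re = e.c := by rw [hz₀]; simp
  have hz₀i : z₀.im = E := by rw [hz₀]; simp
  rw [← hz₀] at hM hT
  have hA0 : 0 < ‖e.g z₀‖ := e5_g_pos e z₀ (by rw [hz₀i]; exact hE)
  obtain ⟨A, hA⟩ : ∃ A : ℝ, A = ‖e.g z₀‖ := ⟨_, rfl⟩
  rw [← hA] at hM hT hA0
  have hn0 : ‖z₀ - e.c‖ = E := by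
    rw [hz₀]
    have h5 : (e.c : ℂ) + (E : ℂ) * Complex.I - e.c = (E : ℂ) * Complex.I := by ring
    rw [h5, norm_mul, Complex.norm_real, Complex.norm_I, mul_one, Real.norm_eq_abs, abs_of_pos hE]
  have harg : |(e.g z₀).arg| ≤ 1 := by
    have h5 := h21 z₀ (by unfold Uo; rw [Set.mem_ofPred_eq, hz₀i]; exact hE)
      (by rw [hn0]; linarith)
    rw [hn0] at h5
    refine h5.trans ?_
    have h6 : 2 * E / R ≤ 1 / 100 := by
      rw [div_le_iff₀ hR]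
      linarith
    linarith
  obtain ⟨hΨA, hg⟩ := e5_psi hW e.c E Q ε A _ hE hA0 hQ hε (by nlinarith) hM hT e.g
    (fun z hz => (h41 z hz).2) z₀ hz₀r hz₀i hA harg rfl
  have h3p := fun x h1 h2 => e5_three e E Q ε A hE hA0 hQ hε hp1 hg hY hN x h1 h2
  have hsE : 0 < Real.sqrt E := Real.sqrt_pos.mpr hE
  have hAE : 0 < A * Real.sqrt E := mul_pos hA0 hsE
  have hconv : (400 * Q * ε) * A * Real.sqrt E ≤ ε ^ (4 / 5 : ℝ) * A * Real.sqrt E := by
    have h5 := mul_le_mul_of_nonneg_right hp2 hAE.le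
    linarith
  refine ⟨A, hE, hA0, ?_, by linarith, ?_, ?_, ?_, ?_⟩
  · intro t ht1 ht2
    exact hLW t ht1 (by linarith)
  · intro x r hx1 hx2 hr1 hr2
    exact (h3p x hx1 hx2).1 r hr1 hr2
  · intro x r hx1 hx2 hr1 hr2
    exact ((h3p x hx1 hx2).2.1 r hr1 hr2).trans hconv
  · intro x hx1 hx2
    exact (h3p x hx1 hx2).2.2.trans hconv
  · intro W hWa hWb hWs
    have hcdef : W.c = (W.a + W.b) / 2 := rfl
    have hab := W.lt
    have hc1 : e.c + E / 5 ≤ W.c := by rw [hcdef]; linarith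
    have hc2 : W.c ≤ e.c + 2 * E := by rw [hcdef]; linarith
    have hNc : Nf cd W.c = W.N := W.lab W.c ⟨by rw [hcdef]; linarith, by rw [hcdef]; linarith⟩
    have hD0 : 0 ≤ W.N - e.N := by
      rw [← hNc]
      exact hmono W.c (by linarith)
    have hD : W.N - e.N ≤ 2 * (A * Real.sqrt E) := by
      have h5 := (abs_le.mp (h3p W.c (by linarith) (by linarith)).2.2).2
      rw [hNc] at h5
      have h6 : Real.sqrt (W.c - e.c) ≤ 3 / 2 * Real.sqrt E := by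
        rw [Real.sqrt_le_left (by positivity), mul_pow, Real.sq_sqrt hE.le]
        linarith
      have h7 : A * Real.sqrt (W.c - e.c) ≤ A * (3 / 2 * Real.sqrt E) :=
        mul_le_mul_of_nonneg_left h6 hA0.le
      have h8 : (400 * Q * ε) * A * Real.sqrt E ≤ 1 / 2 * (A * Real.sqrt E) := by
        have h9 : 400 * Q * ε ≤ 1 / 2 := by
          have h10 : ε ^ (4 / 5 : ℝ) ≤ 1 / 2 := by
            have h11 : ε ^ (4 / 5 : ℝ) ≤ (1 / 32 : ℝ) ^ (4 / 5 : ℝ) :=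
              Real.rpow_le_rpow hε.le (by linarith) (by norm_num)
            have h12 : (1 / 32 : ℝ) ^ (4 / 5 : ℝ) = 1 / 16 := by
              have h13 : (1 / 32 : ℝ) = (1 / 2 : ℝ) ^ (5 : ℝ) := by norm_num
              rw [h13, ← Real.rpow_mul (by norm_num)]
              norm_num
            rw [h12] at h11
            linarith
          linarith
        have h10 := mul_le_mul_of_nonneg_right h9 hAE.le
        linarith
      linarith
    have hca : e.c < W.a := by linarith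
    obtain ⟨hi1, hid1⟩ := h42 W hca
    obtain ⟨hi2, hid2⟩ := h43 W hca
    constructor
    · have h5 := e5_law1 e W E Q ε A _ hE hA0 hQ hε hε100 hW hv0' hM hT rfl hΨA hWa hWb hWs
        hi1 hid1 hD0 hD
      have h6 : 400 * Q * ε ^ 2 * A * Real.sqrt E ≤ ε ^ (19 / 10 : ℝ) * A * Real.sqrt E := by
        have h7 := mul_le_mul_of_nonneg_right hp3 hAE.le
        linarith
      linarith
    · have h5 := e5_law2 e W E Q ε A hE hA0 hQ hε hε100 hW hv0' hM hT hWa hWb hWs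
        hi2 hid2 hD0 hD
      have h6 : 400 * Q * ε ^ 2 * A / Real.sqrt E ≤ ε ^ (19 / 10 : ℝ) * A / Real.sqrt E := by
        have h7 : 0 ≤ A / Real.sqrt E := by positivity
        have h8 := mul_le_mul_of_nonneg_right hp3 h7
        calc 400 * Q * ε ^ 2 * A / Real.sqrt E = 400 * Q * ε ^ 2 * (A / Real.sqrt E) := by ring
          _ ≤ ε ^ (19 / 10 : ℝ) * (A / Real.sqrt E) := h8
          _ = ε ^ (19 / 10 : ℝ) * A / Real.sqrt E := by ring
      linarith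

end Pool.Agent.Helper63.CV
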