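import Mathlib

/-! Elementary integrals for the local law at an edge. -/

set_option autoImplicit false

namespace Pool.Agent.Helper63.CV

open Filter Topology MeasureTheory Set

lemma e5_arc_deriv (a b t : ℝ) (h1 : a < t) (h2 : t < b) :
    HasDerivAt (fun t : ℝ => Real.arcsin ((2 * t - a - b) / (b - a)))
      (1 / Real.sqrt ((t - a) * (b - t))) t := by
  have hba : 0 < b - a := by linarith
  have h3 : 0 < (t - a) * (b - t) := mul_pos (by linarith) (by linarith)
  have hx1 : (2 * t - a - b) / (b - a) ≠ -1 := by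
    intro h
    rw [div_eq_iff hba.ne'] at h
    linarith
  have hx2 : (2 * t - a - b) / (b - a) ≠ 1 := by
    intro h
    rw [div_eq_iff hba.ne'] at h
    linarith
  have hd : HasDerivAt (fun t : ℝ => (2 * t - a - b) / (b - a)) (2 / (b - a)) t := by
    have h4 : HasDerivAt (fun t : ℝ => 2 * t - a - b) 2 t := by
      have h5 := (((hasDerivAt_id t).const_mul 2).sub_const a).sub_const b
      rw [mul_one] at h5
      exact h5
    exact h4.div_const _
  have h6 := (Real.hasDerivAt_arcsin hx1 hx2).comp t hd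
  refine h6.congr_deriv ?_
  have h7 : 1 - ((2 * t - a - b) / (b - a)) ^ 2 = (t - a) * (b - t) * (2 / (b - a)) ^ 2 := by
    field_simp
    ring
  rw [h7, Real.sqrt_mul h3.le, Real.sqrt_sq (by positivity)]
  have h8 : Real.sqrt ((t - a) * (b - t)) ≠ 0 := (Real.sqrt_pos.mpr h3).ne'
  field_simp

lemma e5_arc_int (a b : ℝ) (hab : a < b) :
    IntervalIntegrable (fun t : ℝ => 1 / Real.sqrt ((t - a) * (b - t))) volume a b ∧
    ∫ t in a..b, 1 / Real.sqrt ((t - a) * (b - t)) = Real.pi := by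
  have hcont : ContinuousOn (fun t : ℝ => Real.arcsin ((2 * t - a - b) / (b - a))) (Icc a b) := by
    refine (Real.continuous_arcsin.comp ?_).continuousOn
    fun_prop
  have hint : IntegrableOn (fun t : ℝ => 1 / Real.sqrt ((t - a) * (b - t))) (Ioc a b) :=
    intervalIntegral.integrableOn_deriv_of_nonneg hcont
      (fun x hx => e5_arc_deriv a b x hx.1 hx.2) (fun x _ => by positivity)
  have hint' : IntervalIntegrable (fun t : ℝ => 1 / Real.sqrt ((t - a) * (b - t))) volume a b :=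
    (intervalIntegrable_iff_integrableOn_Ioc_of_le hab.le).mpr hint
  refine ⟨hint', ?_⟩
  rw [intervalIntegral.integral_eq_sub_of_hasDerivAt_of_le hab.le hcont
    (fun x hx => e5_arc_deriv a b x hx.1 hx.2) hint']
  have hba : b - a ≠ 0 := by linarith
  have h1 : (2 * b - a - b) / (b - a) = 1 := by
    rw [div_eq_iff hba]; ring
  have h2 : (2 * a - a - b) / (b - a) = -1 := by
    rw [div_eq_iff hba]; ring
  rw [h1, h2, Real.arcsin_neg, Real.arcsin_one]
  ring

lemma e5_odd_int (a b : ℝ) (hab : a < b) :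
    IntervalIntegrable (fun t : ℝ => (t - (a + b) / 2) / Real.sqrt ((t - a) * (b - t))) volume a b ∧
    ∫ t in a..b, (t - (a + b) / 2) / Real.sqrt ((t - a) * (b - t)) = 0 := by
  obtain ⟨h1, _⟩ := e5_arc_int a b hab
  have hint : IntervalIntegrable (fun t : ℝ => (t - (a + b) / 2) / Real.sqrt ((t - a) * (b - t)))
      volume a b := by
    have h2 := h1.continuousOn_mul (g := fun t : ℝ => t - (a + b) / 2)
      (by fun_prop : ContinuousOn (fun t : ℝ => t - (a + b) / 2) (uIcc a b))
    refine h2.congr (fun t _ => ?_)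
    exact mul_one_div _ _
  refine ⟨hint, ?_⟩
  have hcont : ContinuousOn (fun t : ℝ => -Real.sqrt ((t - a) * (b - t))) (Icc a b) := by
    fun_prop
  rw [intervalIntegral.integral_eq_sub_of_hasDerivAt_of_le hab.le hcont (fun x hx => ?_) hint]
  · simp
  · have h3 : 0 < (x - a) * (b - x) := mul_pos (by linarith [hx.1]) (by linarith [hx.2])
    have h4 : HasDerivAt (fun t : ℝ => (t - a) * (b - t)) (1 * (b - x) + (x - a) * (-1)) x := by
      have h5 := (hasDerivAt_id x).sub_const a
      have h6 := (hasDerivAt_id x).const_sub b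
      exact h5.mul h6
    have h7 := (h4.sqrt h3.ne').neg
    refine h7.congr_deriv ?_
    ring

/-- second order expansion of `1 / sqrt` -/
lemma e5_sqrt_exp (X u k : ℝ) (hX : 0 < X) (hk : k ≤ 1 / 10) (hu : |u| ≤ k * X) :
    |1 / Real.sqrt (X + u) - (1 / Real.sqrt X) * (1 - u / (2 * X))| ≤ k ^ 2 / Real.sqrt X := by
  obtain ⟨v, hv⟩ : ∃ v : ℝ, v = u / X := ⟨_, rfl⟩
  have huv : u = v * X := by rw [hv]; field_simp
  have hk0 : 0 ≤ k := by
    by_contra h
    rw [not_le] at h
    have h1 : k * X < 0 := mul_neg_of_neg_of_pos h hX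
    linarith [abs_nonneg u]
  have hvk : |v| ≤ k := by
    rw [hv, abs_div, abs_of_pos hX, div_le_iff₀ hX]
    exact hu
  have hv1 := (abs_le.mp hvk)
  obtain ⟨r, hr⟩ : ∃ r : ℝ, r = Real.sqrt (1 + v) := ⟨_, rfl⟩
  have h1v : 0 < 1 + v := by linarith [hv1.1]
  have hr0 : 0 < r := by rw [hr]; exact Real.sqrt_pos.mpr h1v
  have hr2 : r ^ 2 = 1 + v := by rw [hr]; exact Real.sq_sqrt h1v.le
  have hr9 : 9 / 10 ≤ r := by nlinarith [hv1.1]
  have hs : Real.sqrt (X + u) = Real.sqrt X * r := by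
    rw [hr, ← Real.sqrt_mul hX.le]
    congr 1
    rw [huv]; ring
  have hsX : 0 < Real.sqrt X := Real.sqrt_pos.mpr hX
  have hux : u / (2 * X) = v / 2 := by rw [huv]; field_simp
  have hv2 : v = r ^ 2 - 1 := by linarith
  have hid : 1 / Real.sqrt (X + u) - (1 / Real.sqrt X) * (1 - u / (2 * X)) =
      ((r - 1) ^ 2 * (r + 2) / (2 * r)) / Real.sqrt X := by
    rw [hs, hux, hv2]
    field_simp
    ring
  rw [hid, abs_of_nonneg (by positivity)]
  refine div_le_div_of_nonneg_right ?_ hsX.le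
  have hv3 : v ^ 2 = (r - 1) ^ 2 * (r + 1) ^ 2 := by rw [hv2]; ring
  have hv4 : v ^ 2 ≤ k ^ 2 := by
    rw [← sq_abs v]
    exact pow_le_pow_left₀ (abs_nonneg v) hvk 2
  refine le_trans ?_ hv4
  rw [hv3, div_le_iff₀ (by positivity)]
  have h9 : (r + 2) ≤ (r + 1) ^ 2 * (2 * r) := by nlinarith
  have h10 : 0 ≤ (r - 1) ^ 2 := sq_nonneg _
  calc (r - 1) ^ 2 * (r + 2) ≤ (r - 1) ^ 2 * ((r + 1) ^ 2 * (2 * r)) :=
        mul_le_mul_of_nonneg_left h9 h10
    _ = (r - 1) ^ 2 * (r + 1) ^ 2 * (2 * r) := by ring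

lemma e5_av (c a b k : ℝ) (hab : a < b) (hk : k ≤ 1 / 10) (hX : 0 < (a + b) / 2 - c)
    (hs : (b - a) / 2 ≤ k * ((a + b) / 2 - c)) :
    |(1 / Real.pi) * (∫ t in a..b, (1 / Real.sqrt (t - c)) / Real.sqrt ((t - a) * (b - t))) -
      1 / Real.sqrt ((a + b) / 2 - c)| ≤ k ^ 2 / Real.sqrt ((a + b) / 2 - c) := by
  obtain ⟨X, hXd⟩ : ∃ X : ℝ, X = (a + b) / 2 - c := ⟨_, rfl⟩
  rw [← hXd] at hX hs ⊢
  obtain ⟨h1, h1'⟩ := e5_arc_int a b hab
  obtain ⟨h2, h2'⟩ := e5_odd_int a b hab
  have hk1 : k * X ≤ X / 10 := by nlinarith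
  have hac : 0 < a - c := by
    have : a - c = X - (b - a) / 2 := by rw [hXd]; ring
    linarith
  have h3 : IntervalIntegrable (fun t : ℝ => (1 / Real.sqrt (t - c)) /
      Real.sqrt ((t - a) * (b - t))) volume a b := by
    have h4 := h1.continuousOn_mul (g := fun t : ℝ => 1 / Real.sqrt (t - c)) (by
      rw [uIcc_of_le hab.le]
      refine ContinuousOn.div continuousOn_const (by fun_prop) (fun t ht => ?_)
      exact (Real.sqrt_pos.mpr (by linarith [ht.1])).ne')
    refine h4.congr (fun t _ => ?_)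
    exact mul_one_div _ _
  have h5 : (∫ t in a..b, (1 / Real.sqrt (t - c)) / Real.sqrt ((t - a) * (b - t))) -
      (1 / Real.sqrt X) * Real.pi =
      ∫ t in a..b, (1 / Real.sqrt (t - c) - (1 / Real.sqrt X) *
        (1 - (t - (a + b) / 2) / (2 * X))) / Real.sqrt ((t - a) * (b - t)) := by
    have h6 : (1 / Real.sqrt X) * Real.pi = ∫ t in a..b, ((1 / Real.sqrt X) *
        (1 / Real.sqrt ((t - a) * (b - t))) - (1 / Real.sqrt X) * (1 / (2 * X)) *
        ((t - (a + b) / 2) / Real.sqrt ((t - a) * (b - t)))) := by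
      rw [intervalIntegral.integral_sub (h1.const_mul _) (h2.const_mul _),
        intervalIntegral.integral_const_mul, intervalIntegral.integral_const_mul, h1', h2']
      ring
    rw [h6, ← intervalIntegral.integral_sub h3 ((h1.const_mul _).sub (h2.const_mul _))]
    refine intervalIntegral.integral_congr (fun t _ => ?_)
    ring
  have h7 : ‖∫ t in a..b, (1 / Real.sqrt (t - c) - (1 / Real.sqrt X) *
        (1 - (t - (a + b) / 2) / (2 * X))) / Real.sqrt ((t - a) * (b - t))‖ ≤
      ∫ t in a..b, (k ^ 2 / Real.sqrt X) * (1 / Real.sqrt ((t - a) * (b - t))) := by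
    refine intervalIntegral.norm_integral_le_of_norm_le hab.le ?_ (h1.const_mul _)
    filter_upwards with t ht
    rw [norm_div, Real.norm_eq_abs, Real.norm_eq_abs, abs_of_nonneg (Real.sqrt_nonneg _),
      mul_one_div]
    refine div_le_div_of_nonneg_right ?_ (Real.sqrt_nonneg _)
    have h8 := e5_sqrt_exp X (t - (a + b) / 2) k hX hk (by
      refine le_trans ?_ hs
      rw [abs_le]
      exact ⟨by linarith [ht.1], by linarith [ht.2]⟩)
    have h9 : X + (t - (a + b) / 2) = t - c := by rw [hXd]; ring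
    rw [h9] at h8
    exact h8
  rw [intervalIntegral.integral_const_mul, h1', ← h5, Real.norm_eq_abs] at h7
  have hpi := Real.pi_pos
  have h10 : (1 / Real.pi) * (∫ t in a..b, (1 / Real.sqrt (t - c)) /
      Real.sqrt ((t - a) * (b - t))) - 1 / Real.sqrt X = (1 / Real.pi) *
      ((∫ t in a..b, (1 / Real.sqrt (t - c)) / Real.sqrt ((t - a) * (b - t))) -
      (1 / Real.sqrt X) * Real.pi) := by
    field_simp
  rw [h10, abs_mul, abs_of_pos (by positivity : (0 : ℝ) < 1 / Real.pi)]
  calc (1 / Real.pi) * |(∫ t in a..b, (1 / Real.sqrt (t - c)) / Real.sqrt ((t - a) * (b - t))) -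
      (1 / Real.sqrt X) * Real.pi| ≤ (1 / Real.pi) * (k ^ 2 / Real.sqrt X * Real.pi) :=
        mul_le_mul_of_nonneg_left h7 (by positivity)
    _ = k ^ 2 / Real.sqrt X := by field_simp

/-- antiderivative for the tail -/
lemma e5_tail_deriv (h u : ℝ) (hh : 0 < h) (hu : 0 < u) :
    HasDerivAt (fun u : ℝ => (1 / (h * Real.sqrt h)) * Real.arctan (Real.sqrt (u / h)) +
      Real.sqrt u / (h * (u + h))) (1 / (Real.sqrt u * (u + h) ^ 2)) u := by
  have hsu : 0 < Real.sqrt u := Real.sqrt_pos.mpr hu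
  have hsh : 0 < Real.sqrt h := Real.sqrt_pos.mpr hh
  have h1 : HasDerivAt (fun u : ℝ => Real.sqrt (u / h)) (1 / h / (2 * Real.sqrt (u / h))) u := by
    have h2 := (hasDerivAt_id u).div_const h
    exact h2.sqrt (div_pos hu hh).ne'
  have h3 := (Real.hasDerivAt_arctan (Real.sqrt (u / h))).comp u h1
  have h4 := h3.const_mul (1 / (h * Real.sqrt h))
  have h5 : HasDerivAt (fun u : ℝ => Real.sqrt u / (h * (u + h)))
      ((1 / (2 * Real.sqrt u) * (h * (u + h)) - Real.sqrt u * (h * 1)) / (h * (u + h)) ^ 2) u := by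
    have h6 := (hasDerivAt_id u).sqrt hu.ne'
    have h7 := ((hasDerivAt_id u).add_const h).const_mul h
    exact h6.div h7 (by positivity)
  refine (h4.add h5).congr_deriv ?_
  have h8 : Real.sqrt (u / h) = Real.sqrt u / Real.sqrt h := Real.sqrt_div hu.le h
  rw [h8]
  have h9 : (Real.sqrt u / Real.sqrt h) ^ 2 = u / h := by
    rw [div_pow, Real.sq_sqrt hu.le, Real.sq_sqrt hh.le]
  rw [h9]
  have h10 : h = Real.sqrt h ^ 2 := (Real.sq_sqrt hh.le).symm
  have h11 : u = Real.sqrt u ^ 2 := (Real.sq_sqrt hu.le).symm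
  obtain ⟨p, hp⟩ : ∃ p : ℝ, p = Real.sqrt h := ⟨_, rfl⟩
  obtain ⟨q, hq⟩ : ∃ q : ℝ, q = Real.sqrt u := ⟨_, rfl⟩
  rw [← hp] at h10 hsh ⊢
  rw [← hq] at h11 hsu ⊢
  rw [h10, h11]
  have hp0 : p ≠ 0 := hsh.ne'
  have hq0 : q ≠ 0 := hsu.ne'
  have hpq : q ^ 2 + p ^ 2 ≠ 0 := by positivity
  have hpq2 : 1 + q ^ 2 / p ^ 2 ≠ 0 := by positivity
  have h12 : 1 / (1 + q ^ 2 / p ^ 2) = p ^ 2 / (q ^ 2 + p ^ 2) := by
    rw [div_eq_div_iff hpq2 hpq]
    field_simp
    ring
  rw [h12]
  field_simp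
  ring

lemma e5_tail (c m : ℝ) (h : c < m) :
    IntegrableOn (fun t : ℝ => 1 / (Real.sqrt (c - t) * (m - t) ^ 2)) (Iio c) ∧
    ∫ t in Iio c, 1 / (Real.sqrt (c - t) * (m - t) ^ 2) =
      Real.pi / (2 * ((m - c) * Real.sqrt (m - c))) := by
  obtain ⟨X, hX⟩ : ∃ X : ℝ, X = m - c := ⟨_, rfl⟩
  have hX0 : 0 < X := by rw [hX]; linarith
  have hsX : 0 < Real.sqrt X := Real.sqrt_pos.mpr hX0
  have hcont : ContinuousWithinAt (fun u : ℝ => (1 / (X * Real.sqrt X)) *
      Real.arctan (Real.sqrt (u / X)) + Real.sqrt u / (X * (u + X))) (Ici 0) 0 := by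
    refine ContinuousAt.continuousWithinAt ?_
    refine ContinuousAt.add ?_ ?_
    · refine Continuous.continuousAt ?_
      exact continuous_const.mul (Real.continuous_arctan.comp
        (Real.continuous_sqrt.comp (continuous_id.div_const X)))
    · refine ContinuousAt.div Real.continuous_sqrt.continuousAt (by fun_prop) ?_
      positivity
  have hpos : ∀ u ∈ Ioi (0 : ℝ), 0 ≤ 1 / (Real.sqrt u * (u + X) ^ 2) := by
    intro u _
    positivity
  have hlim : Tendsto (fun u : ℝ => (1 / (X * Real.sqrt X)) *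
      Real.arctan (Real.sqrt (u / X)) + Real.sqrt u / (X * (u + X))) atTop
      (𝓝 ((1 / (X * Real.sqrt X)) * (Real.pi / 2) + 0)) := by
    refine Tendsto.add ?_ ?_
    · refine Tendsto.const_mul _ ?_
      have h1 : Tendsto Real.arctan atTop (𝓝 (Real.pi / 2)) :=
        (Real.tendsto_arctan_atTop).mono_right nhdsWithin_le_nhds
      refine h1.comp (Real.tendsto_sqrt_atTop.comp ?_)
      exact tendsto_id.atTop_div_const hX0
    · have h1 : Tendsto (fun u : ℝ => 1 / (X * Real.sqrt u)) atTop (𝓝 0) := by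
        have h2 : Tendsto (fun u : ℝ => X * Real.sqrt u) atTop atTop :=
          Real.tendsto_sqrt_atTop.const_mul_atTop hX0
        refine (h2.inv_tendsto_atTop).congr (fun u => ?_)
        simp [one_div]
      refine squeeze_zero' ?_ ?_ h1
      · filter_upwards [eventually_gt_atTop (0 : ℝ)] with u hu
        positivity
      · filter_upwards [eventually_gt_atTop (0 : ℝ)] with u hu
        have hsu : 0 < Real.sqrt u := Real.sqrt_pos.mpr hu
        rw [div_le_div_iff₀ (by positivity) (by positivity), one_mul]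
        have h3 : Real.sqrt u * (X * Real.sqrt u) = X * u := by
          have h4 := Real.mul_self_sqrt hu.le
          calc Real.sqrt u * (X * Real.sqrt u) = X * (Real.sqrt u * Real.sqrt u) := by ring
            _ = X * u := by rw [h4]
        rw [h3]
        nlinarith
  have hint := integrableOn_Ioi_deriv_of_nonneg hcont
    (fun u hu => e5_tail_deriv X u hX0 hu) hpos hlim
  have hval := integral_Ioi_of_hasDerivAt_of_nonneg hcont
    (fun u hu => e5_tail_deriv X u hX0 hu) hpos hlim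
  have hmp : MeasurePreserving (fun t : ℝ => c - t) volume volume :=
    Measure.measurePreserving_sub_left volume c
  have hemb : MeasurableEmbedding (fun t : ℝ => c - t) :=
    (Homeomorph.subLeft c).measurableEmbedding
  have hpre : (fun t : ℝ => c - t) ⁻¹' (Ioi 0) = Iio c := by
    ext t
    simp
  have hfun : (fun t : ℝ => 1 / (Real.sqrt (c - t) * (m - t) ^ 2)) =
      (fun u : ℝ => 1 / (Real.sqrt u * (u + X) ^ 2)) ∘ (fun t : ℝ => c - t) := by
    ext t
    simp only [Function.comp_apply]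
    rw [hX]
    congr 3
    ring
  constructor
  · rw [hfun, ← hpre]
    exact (hmp.integrableOn_comp_preimage hemb).mpr hint
  · have h1 := hmp.setIntegral_preimage_emb hemb
      (fun u : ℝ => 1 / (Real.sqrt u * (u + X) ^ 2)) (Ioi 0)
    rw [hpre, hval] at h1
    have h2 : ∫ t in Iio c, 1 / (Real.sqrt (c - t) * (m - t) ^ 2) =
        ∫ t in Iio c, (fun u : ℝ => 1 / (Real.sqrt u * (u + X) ^ 2)) (c - t) := by
      rw [hfun]
      rfl
    rw [h2, h1, ← hX]
    simp only [zero_div, Real.sqrt_zero, Real.arctan_zero, mul_zero, add_zero, sub_zero]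
    field_simp

end Pool.Agent.Helper63.CV
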