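import Pool.Agent.Helper63.CV.E5a

/-! Splitting of the integrals of a weight into a near and a far part. -/

set_option autoImplicit false

namespace Pool.Agent.Helper63.CV

open Filter Topology MeasureTheory Set

/-- the weight is nonnegative and `w / (t - z)` is integrable -/
structure Wt (w : ℝ → ℝ) : Prop where
  nn : ∀ t, 0 ≤ w t
  int : ∀ z : ℂ, 0 < z.im → Integrable (fun t : ℝ => ((w t : ℝ) : ℂ) / ((t : ℂ) - z))

/-- the far region -/
def FF (c E : ℝ) : Set ℝ := {t | 4 * E < |t - c|}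

lemma FF_meas (c E : ℝ) : MeasurableSet (FF c E) := by
  unfold FF
  exact measurableSet_lt measurable_const (by fun_prop)

lemma FF_compl (c E : ℝ) : (FF c E)ᶜ = Icc (c - 4 * E) (c + 4 * E) := by
  unfold FF
  ext t
  rw [Set.mem_compl_iff, Set.mem_ofPred_eq, not_lt, Set.mem_Icc, abs_le]
  constructor
  · exact fun h => ⟨by linarith [h.1], by linarith [h.2]⟩
  · exact fun h => ⟨by linarith [h.1], by linarith [h.2]⟩

lemma e5_meas {w : ℝ → ℝ} (hw : Wt w) : AEStronglyMeasurable w volume := by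
  have h1 := (hw.int Complex.I (by simp)).aestronglyMeasurable
  have h2 : AEStronglyMeasurable (fun t : ℝ => (((w t : ℝ) : ℂ) / ((t : ℂ) - Complex.I) *
      ((t : ℂ) - Complex.I)).re) volume := by
    refine Complex.continuous_re.comp_aestronglyMeasurable (h1.mul ?_)
    exact (by fun_prop : Continuous (fun t : ℝ => (t : ℂ) - Complex.I)).aestronglyMeasurable
  refine h2.congr (Eventually.of_forall (fun t => ?_))
  have h3 : (t : ℂ) - Complex.I ≠ 0 := by
    intro h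
    have h4 := congrArg Complex.im h
    simp at h4
  simp only
  rw [div_mul_cancel₀ _ h3, Complex.ofReal_re]

lemma e5_norm (c t : ℝ) : ‖(t : ℂ) - ((c : ℂ) + Complex.I)‖ ≤ 1 + |t - c| := by
  have h1 : (t : ℂ) - ((c : ℂ) + Complex.I) = ((t - c : ℝ) : ℂ) - Complex.I := by
    push_cast
    ring
  rw [h1]
  refine (norm_sub_le _ _).trans ?_
  rw [Complex.norm_real, Real.norm_eq_abs, Complex.norm_I]
  linarith

lemma e5_norm_pos (c t : ℝ) : 0 < ‖(t : ℂ) - ((c : ℂ) + Complex.I)‖ := by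
  rw [norm_pos_iff]
  intro h
  have h4 := congrArg Complex.im h
  simp at h4

lemma e5_int {w : ℝ → ℝ} (hw : Wt w) (c : ℝ) (S : Set ℝ) (hS : MeasurableSet S) (φ : ℝ → ℝ)
    (hφ : Measurable φ) (M : ℝ) (h : ∀ t ∈ S, |φ t| * (1 + |t - c|) ≤ M) :
    IntegrableOn (fun t => w t * φ t) S := by
  have h1 := (hw.int ((c : ℂ) + Complex.I) (by simp)).norm.const_mul M
  have h1' : IntegrableOn (fun t : ℝ => M * ‖((w t : ℝ) : ℂ) / ((t : ℂ) - ((c : ℂ) +
    Complex.I))‖) S := h1.integrableOn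
  refine Integrable.mono' h1' ?_ ?_
  · exact ((e5_meas hw).mul hφ.aestronglyMeasurable).restrict
  · rw [ae_restrict_iff' hS]
    refine Eventually.of_forall (fun t ht => ?_)
    have h2 := e5_norm_pos c t
    rw [norm_mul, Real.norm_eq_abs, Real.norm_eq_abs, norm_div, Complex.norm_real,
      Real.norm_eq_abs, mul_div_assoc', le_div_iff₀ h2]
    have h3 : |φ t| * ‖(t : ℂ) - ((c : ℂ) + Complex.I)‖ ≤ M :=
      (mul_le_mul_of_nonneg_left (e5_norm c t) (abs_nonneg _)).trans (h t ht)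
    calc |w t| * |φ t| * ‖(t : ℂ) - ((c : ℂ) + Complex.I)‖ =
        |w t| * (|φ t| * ‖(t : ℂ) - ((c : ℂ) + Complex.I)‖) := by ring
      _ ≤ |w t| * M := mul_le_mul_of_nonneg_left h3 (abs_nonneg _)
      _ = M * |w t| := by ring

lemma e5_int_near {w : ℝ → ℝ} (hw : Wt w) (c R : ℝ) : IntegrableOn w (Icc (c - R) (c + R)) := by
  have h1 := e5_int hw c (Icc (c - R) (c + R)) measurableSet_Icc (fun _ => 1) measurable_const
    (1 + R) (fun t ht => by
      have h2 : |t - c| ≤ R := by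
        rw [abs_le]
        exact ⟨by linarith [ht.1], by linarith [ht.2]⟩
      rw [abs_one, one_mul]
      linarith)
  refine h1.congr_fun (fun t _ => ?_) measurableSet_Icc
  exact mul_one _

lemma e5_int_far1 {w : ℝ → ℝ} (hw : Wt w) (c E : ℝ) (hE : 0 < E) :
    IntegrableOn (fun t => w t * (1 / (t - c))) (FF c E) := by
  refine e5_int hw c (FF c E) (FF_meas c E) (fun t => 1 / (t - c)) (by fun_prop)
    (1 / (4 * E) + 1) (fun t ht => ?_)
  unfold FF at ht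
  rw [Set.mem_ofPred_eq] at ht
  have h1 : 0 < |t - c| := by linarith
  rw [abs_div, abs_one, div_mul_eq_mul_div, one_mul, div_le_iff₀ h1]
  have h2 : 1 ≤ 1 / (4 * E) * |t - c| := by
    rw [div_mul_eq_mul_div, one_mul, le_div_iff₀ (by linarith)]
    linarith
  linarith

lemma e5_int_far2 {w : ℝ → ℝ} (hw : Wt w) (c E : ℝ) (hE : 0 < E) :
    IntegrableOn (fun t => w t * (1 / (t - c) ^ 2)) (FF c E) := by
  refine e5_int hw c (FF c E) (FF_meas c E) (fun t => 1 / (t - c) ^ 2) (by fun_prop)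
    ((1 / (4 * E) + 1) * (1 / (4 * E))) (fun t ht => ?_)
  unfold FF at ht
  rw [Set.mem_ofPred_eq] at ht
  have h1 : 0 < |t - c| := by linarith
  have h0 : |1 / (t - c) ^ 2| = 1 / |t - c| * (1 / |t - c|) := by
    rw [abs_div, abs_one, abs_pow]
    field_simp
  have h2 : 1 / |t - c| ≤ 1 / (4 * E) := one_div_le_one_div_of_le (by linarith) ht.le
  have h3 : 1 / |t - c| * (1 + |t - c|) ≤ 1 / (4 * E) + 1 := by
    have h4 : 1 / |t - c| * (1 + |t - c|) = 1 / |t - c| + 1 := by field_simp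
    rw [h4]
    linarith
  rw [h0]
  calc 1 / |t - c| * (1 / |t - c|) * (1 + |t - c|) =
      (1 / |t - c| * (1 + |t - c|)) * (1 / |t - c|) := by ring
    _ ≤ (1 / (4 * E) + 1) * (1 / (4 * E)) := mul_le_mul h3 h2 (by positivity) (by positivity)

lemma e5_far_bound (c E t : ℝ) (z : ℂ) (ht : t ∈ FF c E)
    (hz1 : ‖z - (c : ℂ)‖ ≤ 4 * E) (hz2 : |z.re - c| ≤ 3 * E) :
    (t : ℂ) - z ≠ 0 ∧ (t : ℂ) - c ≠ 0 ∧
    ‖1 / ((t : ℂ) - z) - 1 / ((t : ℂ) - c)‖ ≤ 16 * E * (1 / (t - c) ^ 2) := by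
  unfold FF at ht
  rw [Set.mem_ofPred_eq] at ht
  have hE0 : 0 ≤ E := by linarith [norm_nonneg (z - (c : ℂ))]
  have h1 : 0 < |t - c| := by linarith
  have h2 : |t - c| / 4 ≤ ‖(t : ℂ) - z‖ := by
    have h3 : |((t : ℂ) - z).re| ≤ ‖(t : ℂ) - z‖ := Complex.abs_re_le_norm _
    rw [Complex.sub_re, Complex.ofReal_re] at h3
    have h4 : |t - c| ≤ |t - z.re| + |z.re - c| := abs_sub_le t z.re c
    linarith
  have h5 : 0 < ‖(t : ℂ) - z‖ := by linarith
  have h6 : (t : ℂ) - z ≠ 0 := norm_pos_iff.mp h5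
  have h7 : ‖(t : ℂ) - c‖ = |t - c| := by
    rw [← Complex.ofReal_sub, Complex.norm_real, Real.norm_eq_abs]
  have h8 : (t : ℂ) - c ≠ 0 := by
    rw [← norm_pos_iff, h7]
    exact h1
  refine ⟨h6, h8, ?_⟩
  have h9 : 1 / ((t : ℂ) - z) - 1 / ((t : ℂ) - c) =
      (z - c) / (((t : ℂ) - z) * ((t : ℂ) - c)) := by
    field_simp
    ring
  rw [h9, norm_div, norm_mul, h7, mul_one_div, div_le_div_iff₀ (by positivity)
    (by rw [← sq_abs]; positivity)]
  rw [← sq_abs (t - c)]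
  have h10 : |t - c| ^ 2 / 4 ≤ ‖(t : ℂ) - z‖ * |t - c| := by
    have := mul_le_mul_of_nonneg_right h2 h1.le
    calc |t - c| ^ 2 / 4 = |t - c| / 4 * |t - c| := by ring
      _ ≤ _ := this
  calc ‖z - (c : ℂ)‖ * |t - c| ^ 2 ≤ 4 * E * |t - c| ^ 2 :=
        mul_le_mul_of_nonneg_right hz1 (by positivity)
    _ = 16 * E * (|t - c| ^ 2 / 4) := by ring
    _ ≤ 16 * E * (‖(t : ℂ) - z‖ * |t - c|) := mul_le_mul_of_nonneg_left h10 (by linarith)

/-- the Cauchy integral near `c` -/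
lemma e5_G {w : ℝ → ℝ} (hw : Wt w) (c E : ℝ) (hE : 0 < E) (z : ℂ) (hz0 : 0 < z.im)
    (hz1 : ‖z - (c : ℂ)‖ ≤ 4 * E) (hz2 : |z.re - c| ≤ 3 * E) :
    ‖(∫ t : ℝ, ((w t : ℝ) : ℂ) / ((t : ℂ) - z)) -
      ((∫ t in FF c E, w t * (1 / (t - c)) : ℝ) : ℂ)‖ ≤
      (∫ t in Icc (c - 4 * E) (c + 4 * E), w t) / z.im +
        16 * E * ∫ t in FF c E, w t * (1 / (t - c) ^ 2) := by
  have h1 := integral_add_compl (FF_meas c E) (hw.int z hz0)
  rw [FF_compl] at h1
  rw [← h1]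
  have h2 : ((∫ t in FF c E, w t * (1 / (t - c)) : ℝ) : ℂ) =
      ∫ t in FF c E, (((w t * (1 / (t - c)) : ℝ)) : ℂ) := integral_ofReal.symm
  rw [h2]
  have hi1 : IntegrableOn (fun t : ℝ => ((w t : ℝ) : ℂ) / ((t : ℂ) - z)) (FF c E) :=
    (hw.int z hz0).integrableOn
  have hi2 : IntegrableOn (fun t : ℝ => (((w t * (1 / (t - c)) : ℝ)) : ℂ)) (FF c E) :=
    (e5_int_far1 hw c E hE).ofReal
  have h3 : (∫ t in FF c E, ((w t : ℝ) : ℂ) / ((t : ℂ) - z)) +
      (∫ t in Icc (c - 4 * E) (c + 4 * E), ((w t : ℝ) : ℂ) / ((t : ℂ) - z)) -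
      (∫ t in FF c E, (((w t * (1 / (t - c)) : ℝ)) : ℂ)) =
      (∫ t in FF c E, (((w t : ℝ) : ℂ) / ((t : ℂ) - z) - (((w t * (1 / (t - c)) : ℝ)) : ℂ))) +
      (∫ t in Icc (c - 4 * E) (c + 4 * E), ((w t : ℝ) : ℂ) / ((t : ℂ) - z)) := by
    rw [integral_sub hi1 hi2]
    ring
  rw [h3]
  have h4 : ‖∫ t in FF c E, (((w t : ℝ) : ℂ) / ((t : ℂ) - z) -
      (((w t * (1 / (t - c)) : ℝ)) : ℂ))‖ ≤
      ∫ t in FF c E, 16 * E * (w t * (1 / (t - c) ^ 2)) := by
    refine norm_integral_le_of_norm_le ((e5_int_far2 hw c E hE).const_mul _) ?_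
    rw [ae_restrict_iff' (FF_meas c E)]
    refine Eventually.of_forall (fun t ht => ?_)
    obtain ⟨_, _, h5⟩ := e5_far_bound c E t z ht hz1 hz2
    have h6 : ((w t : ℝ) : ℂ) / ((t : ℂ) - z) - (((w t * (1 / (t - c)) : ℝ)) : ℂ) =
        ((w t : ℝ) : ℂ) * (1 / ((t : ℂ) - z) - 1 / ((t : ℂ) - c)) := by
      push_cast
      ring
    rw [h6, norm_mul, Complex.norm_real, Real.norm_eq_abs, abs_of_nonneg (hw.nn t)]
    calc w t * ‖1 / ((t : ℂ) - z) - 1 / ((t : ℂ) - c)‖ ≤ w t * (16 * E * (1 / (t - c) ^ 2)) :=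
          mul_le_mul_of_nonneg_left h5 (hw.nn t)
      _ = 16 * E * (w t * (1 / (t - c) ^ 2)) := by ring
  rw [integral_const_mul] at h4
  have h7 : ‖∫ t in Icc (c - 4 * E) (c + 4 * E), ((w t : ℝ) : ℂ) / ((t : ℂ) - z)‖ ≤
      ∫ t in Icc (c - 4 * E) (c + 4 * E), (1 / z.im) * w t := by
    refine norm_integral_le_of_norm_le ((e5_int_near hw c (4 * E)).const_mul _) ?_
    refine Eventually.of_forall (fun t => ?_)
    have h8 : z.im ≤ ‖(t : ℂ) - z‖ := by
      have h9 := Complex.abs_im_le_norm ((t : ℂ) - z)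
      rw [Complex.sub_im, Complex.ofReal_im, zero_sub, abs_neg, abs_of_pos hz0] at h9
      exact h9
    rw [norm_div, Complex.norm_real, Real.norm_eq_abs, abs_of_nonneg (hw.nn t),
      div_mul_eq_mul_div, one_mul]
    exact div_le_div_of_nonneg_left (hw.nn t) hz0 h8
  rw [integral_const_mul] at h7
  refine (norm_add_le _ _).trans ?_
  have h10 : (∫ t in Icc (c - 4 * E) (c + 4 * E), w t) / z.im =
      1 / z.im * ∫ t in Icc (c - 4 * E) (c + 4 * E), w t := by ring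
  rw [h10]
  linarith

/-- real kernels -/
lemma e5_K {w f : ℝ → ℝ} (hw : Wt w) (c E : ℝ) (hE : 0 < E) (hf : Integrable f) (x r : ℝ)
    (hxr : Icc (x - r) (x + r) ⊆ Icc (c - 4 * E) (c + 4 * E)) (v : ℝ → ℝ)
    (hv : IntegrableOn v (Icc (x - r) (x + r))) (Ψ k1 k2 k3 : ℝ) (hk2 : 0 ≤ k2)
    (h1 : |(∫ t in FF c E, f t) - Ψ| ≤ k1)
    (h2 : ∀ t ∈ Icc (c - 4 * E) (c + 4 * E), t ∉ Icc (x - r) (x + r) → |f t| ≤ k2 * w t)
    (h3 : ∀ t ∈ Icc (x - r) (x + r), |f t| ≤ k3 * v t) :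
    |(∫ t, f t) - Ψ| ≤ k1 + k2 * (∫ t in Icc (c - 4 * E) (c + 4 * E), w t) +
      k3 * ∫ t in Icc (x - r) (x + r), v t := by
  have h4 := integral_add_compl (FF_meas c E) hf
  rw [FF_compl] at h4
  have h5 := integral_inter_add_sdiff (s := Icc (c - 4 * E) (c + 4 * E))
    (t := Icc (x - r) (x + r)) measurableSet_Icc (μ := volume) hf.integrableOn
  rw [inter_eq_self_of_subset_right hxr] at h5
  have h6 : ‖∫ t in Icc (x - r) (x + r), f t‖ ≤ ∫ t in Icc (x - r) (x + r), k3 * v t := by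
    refine norm_integral_le_of_norm_le (hv.const_mul _) ?_
    rw [ae_restrict_iff' measurableSet_Icc]
    exact Eventually.of_forall (fun t ht => h3 t ht)
  have h7 : ‖∫ t in Icc (c - 4 * E) (c + 4 * E) \ Icc (x - r) (x + r), f t‖ ≤
      ∫ t in Icc (c - 4 * E) (c + 4 * E) \ Icc (x - r) (x + r), k2 * w t := by
    refine norm_integral_le_of_norm_le ?_ ?_
    · exact ((e5_int_near hw c (4 * E)).mono_set diff_subset).const_mul _
    · rw [ae_restrict_iff' (measurableSet_Icc.diff measurableSet_Icc)]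
      exact Eventually.of_forall (fun t ht => h2 t ht.1 ht.2)
  have h8 : ∫ t in Icc (c - 4 * E) (c + 4 * E) \ Icc (x - r) (x + r), k2 * w t ≤
      ∫ t in Icc (c - 4 * E) (c + 4 * E), k2 * w t := by
    refine setIntegral_mono_set ((e5_int_near hw c (4 * E)).const_mul _) ?_ ?_
    · exact Eventually.of_forall (fun t => mul_nonneg hk2 (hw.nn t))
    · exact (HasSubset.Subset.eventuallyLE diff_subset)
  have h78 := h7.trans h8
  rw [integral_const_mul] at h6 h78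
  rw [Real.norm_eq_abs] at h6 h78
  have h9 : (∫ t, f t) - Ψ = ((∫ t in FF c E, f t) - Ψ) +
      ((∫ t in Icc (c - 4 * E) (c + 4 * E) \ Icc (x - r) (x + r), f t) +
        ∫ t in Icc (x - r) (x + r), f t) := by
    rw [← h4, ← h5]
    ring
  rw [h9]
  refine (abs_add_le _ _).trans ?_
  have h10 := abs_add_le (∫ t in Icc (c - 4 * E) (c + 4 * E) \ Icc (x - r) (x + r), f t)
    (∫ t in Icc (x - r) (x + r), f t)
  linarith

end Pool.Agent.Helper63.CV
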