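import Pool.Agent.Helper63.CV.E5b

/-! Sums over shells. -/

set_option autoImplicit false

namespace Pool.Agent.Helper63.CV

open Filter Topology MeasureTheory Set

lemma e5_ii {w : ℝ → ℝ} (hw : Wt w) (x y : ℝ) : IntervalIntegrable w volume x y := by
  rcases le_total x y with h | h
  · rw [intervalIntegrable_iff_integrableOn_Ioc_of_le h]
    have h1 := e5_int_near hw x (y - x)
    refine h1.mono_set (fun t ht => ⟨by linarith [ht.1], by linarith [ht.2]⟩)
  · refine IntervalIntegrable.symm ?_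
    rw [intervalIntegrable_iff_integrableOn_Ioc_of_le h]
    have h1 := e5_int_near hw y (x - y)
    refine h1.mono_set (fun t ht => ⟨by linarith [ht.1], by linarith [ht.2]⟩)

lemma e5_Icc (w : ℝ → ℝ) (x y : ℝ) (h : x ≤ y) : ∫ t in Icc x y, w t = ∫ t in x..y, w t := by
  rw [intervalIntegral.integral_of_le h, integral_Icc_eq_integral_Ioc]

lemma e5_near_sum {w : ℝ → ℝ} (hw : Wt w) (c E : ℝ) (hE : 0 < E)
    (hz : ∀ t ∈ Icc (c - 4 * E) c, w t = 0) (a : ℝ) (ha : 0 ≤ a)
    (hsh : ∀ k : ℕ, ∫ t in Icc (c + 4 * E / 3 ^ (k + 1)) (c + 4 * E / 3 ^ k), w t ≤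
      a * (1 / 2) ^ k) :
    ∫ t in Icc (c - 4 * E) (c + 4 * E), w t ≤ 2 * a := by
  have h1 : ∀ n : ℕ, ∫ t in (c + 4 * E / 3 ^ n)..(c + 4 * E), w t ≤
      2 * a * (1 - (1 / 2) ^ n) := by
    intro n
    induction n with
    | zero => simp
    | succ n ih =>
      rw [← intervalIntegral.integral_add_adjacent_intervals (e5_ii hw (c + 4 * E / 3 ^ (n + 1))
        (c + 4 * E / 3 ^ n)) (e5_ii hw (c + 4 * E / 3 ^ n) (c + 4 * E))]
      have h2 := hsh n
      rw [e5_Icc w _ _ (by
        have h3 : 4 * E / 3 ^ (n + 1) ≤ 4 * E / 3 ^ n :=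
          div_le_div_of_nonneg_left (by linarith) (by positivity)
            (pow_le_pow_right₀ (by norm_num) (Nat.le_succ n))
        linarith)] at h2
      have h4 : (1 / 2 : ℝ) ^ (n + 1) = (1 / 2) ^ n / 2 := by rw [pow_succ]; ring
      rw [h4]
      linarith
  have h2 : ∀ n : ℕ, ∫ t in (c + 4 * E / 3 ^ n)..(c + 4 * E), w t ≤ 2 * a := by
    intro n
    refine (h1 n).trans ?_
    have h3 : (0 : ℝ) ≤ (1 / 2) ^ n := by positivity
    nlinarith
  have hcont : ContinuousOn (fun x => ∫ t in x..(c + 4 * E), w t) (uIcc (c - 4 * E) (c + 4 * E)) := by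
    refine intervalIntegral.continuousOn_primitive_interval_left ?_
    rw [uIcc_of_le (by linarith)]
    exact e5_int_near hw c (4 * E)
  have hlim : Tendsto (fun n : ℕ => c + 4 * E / 3 ^ n) atTop (𝓝[uIcc (c - 4 * E) (c + 4 * E)] c) := by
    rw [tendsto_nhdsWithin_iff]
    constructor
    · have h3 : Tendsto (fun n : ℕ => 4 * E * (1 / 3 : ℝ) ^ n) atTop (𝓝 (4 * E * 0)) :=
        (tendsto_pow_atTop_nhds_zero_of_lt_one (by norm_num) (by norm_num)).const_mul _
      have h4 := h3.const_add c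
      rw [mul_zero, add_zero] at h4
      refine h4.congr (fun n => ?_)
      rw [one_div, inv_pow]
      rfl
    · refine Eventually.of_forall (fun n => ?_)
      rw [uIcc_of_le (by linarith)]
      have h3 : 0 < 4 * E / 3 ^ n := by positivity
      have h4 : 4 * E / 3 ^ n ≤ 4 * E := div_le_self (by linarith) (one_le_pow₀ (by norm_num))
      exact ⟨by linarith, by linarith⟩
  have hc : c ∈ uIcc (c - 4 * E) (c + 4 * E) := by
    rw [uIcc_of_le (by linarith)]
    exact ⟨by linarith, by linarith⟩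
  have h3 : Tendsto (fun n : ℕ => ∫ t in (c + 4 * E / 3 ^ n)..(c + 4 * E), w t) atTop
      (𝓝 (∫ t in c..(c + 4 * E), w t)) := (hcont c hc).tendsto.comp hlim
  have h4 : ∫ t in c..(c + 4 * E), w t ≤ 2 * a := le_of_tendsto' h3 h2
  rw [e5_Icc w _ _ (by linarith), ← intervalIntegral.integral_add_adjacent_intervals
    (e5_ii hw (c - 4 * E) c) (e5_ii hw c (c + 4 * E))]
  have h5 : ∫ t in (c - 4 * E)..c, w t = 0 := by
    rw [intervalIntegral.integral_congr (g := fun _ => (0 : ℝ)) (fun t ht => ?_)]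
    · simp
    · rw [uIcc_of_le (by linarith)] at ht
      exact hz t ht
  linarith

/-- the kernel is interval integrable to the right of `c` -/
lemma e5_int_k {w : ℝ → ℝ} (hw : Wt w) (c x y : ℝ) (hx : c < x) :
    IntegrableOn (fun t => w t * (1 / (t - c) ^ 2)) (Icc x y) := by
  have h1 := e5_int_far2 hw c ((x - c) / 8) (by linarith)
  refine h1.mono_set (fun t ht => ?_)
  unfold FF
  rw [Set.mem_ofPred_eq]
  have h2 : t - c ≤ |t - c| := le_abs_self _
  have h3 := ht.1
  linarith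

lemma e5_far_sum {w : ℝ → ℝ} (hw : Wt w) (c E : ℝ) (hE : 0 < E) (b : ℝ) (hb : 0 ≤ b) (n : ℕ)
    (hsh : ∀ k < n, ∫ t in Icc (c + 4 * E * 3 ^ k) (c + 4 * E * 3 ^ (k + 1)), w t ≤
      b * (9 / 2) ^ k) :
    ∫ t in Ioc (c + 4 * E) (c + 4 * E * 3 ^ n), w t * (1 / (t - c) ^ 2) ≤ b / (8 * E ^ 2) := by
  have hmono : ∀ k : ℕ, 4 * E * 3 ^ k ≤ 4 * E * 3 ^ (k + 1) := fun k =>
    mul_le_mul_of_nonneg_left (pow_le_pow_right₀ (by norm_num) (Nat.le_succ k)) (by linarith)
  have h1 : ∀ k : ℕ, 4 * E ≤ 4 * E * 3 ^ k := fun k =>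
    le_mul_of_one_le_right (by linarith) (one_le_pow₀ (by norm_num))
  have hii : ∀ k l : ℕ, IntervalIntegrable (fun t => w t * (1 / (t - c) ^ 2)) volume
      (c + 4 * E * 3 ^ k) (c + 4 * E * 3 ^ l) := by
    intro k l
    have hpos : ∀ k : ℕ, c < c + 4 * E * 3 ^ k := fun k => by linarith [h1 k]
    rcases le_total (c + 4 * E * 3 ^ k) (c + 4 * E * 3 ^ l) with h | h
    · rw [intervalIntegrable_iff_integrableOn_Icc_of_le h]
      exact e5_int_k hw c _ _ (hpos k)
    · refine IntervalIntegrable.symm ?_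
      rw [intervalIntegrable_iff_integrableOn_Icc_of_le h]
      exact e5_int_k hw c _ _ (hpos l)
  have h2 : ∀ m ≤ n, ∫ t in (c + 4 * E * 3 ^ 0)..(c + 4 * E * 3 ^ m), w t * (1 / (t - c) ^ 2) ≤
      b / (8 * E ^ 2) * (1 - (1 / 2) ^ m) := by
    intro m
    induction m with
    | zero =>
      intro _
      simp
    | succ m ih =>
      intro hm
      rw [← intervalIntegral.integral_add_adjacent_intervals (hii 0 m) (hii m (m + 1))]
      have h3 := ih (by omega)
      have h4 := hsh m (by omega)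
      have h5 : ∫ t in (c + 4 * E * 3 ^ m)..(c + 4 * E * 3 ^ (m + 1)), w t * (1 / (t - c) ^ 2) ≤
          b / (16 * E ^ 2) * (1 / 2) ^ m := by
        rw [← e5_Icc _ _ _ (by linarith [hmono m])]
        have h6 : ∫ t in Icc (c + 4 * E * 3 ^ m) (c + 4 * E * 3 ^ (m + 1)),
            w t * (1 / (t - c) ^ 2) ≤ ∫ t in Icc (c + 4 * E * 3 ^ m) (c + 4 * E * 3 ^ (m + 1)),
            (1 / (4 * E * 3 ^ m) ^ 2) * w t := by
          refine setIntegral_mono_on (e5_int_k hw c _ _ (by linarith [h1 m])) ?_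
            measurableSet_Icc (fun t ht => ?_)
          · refine Integrable.const_mul ?_ _
            have h7 := e5_int_near hw c (4 * E * 3 ^ (m + 1))
            refine h7.mono_set (fun t ht => ⟨?_, ht.2⟩)
            have h8 := ht.1
            have h9 := h1 m
            have h10 := h1 (m + 1)
            linarith
          · rw [mul_comm]
            refine mul_le_mul_of_nonneg_right ?_ (hw.nn t)
            have h7 : 0 < 4 * E * 3 ^ m := by positivity
            refine one_div_le_one_div_of_le (by positivity) ?_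
            exact pow_le_pow_left₀ h7.le (by linarith [ht.1]) 2
        refine h6.trans ?_
        rw [integral_const_mul]
        calc 1 / (4 * E * 3 ^ m) ^ 2 *
              ∫ t in Icc (c + 4 * E * 3 ^ m) (c + 4 * E * 3 ^ (m + 1)), w t ≤
              1 / (4 * E * 3 ^ m) ^ 2 * (b * (9 / 2) ^ m) :=
              mul_le_mul_of_nonneg_left h4 (by positivity)
          _ = b / (16 * E ^ 2) * (1 / 2) ^ m := by
              have h9 : (9 / 2 : ℝ) ^ m = 9 ^ m * (1 / 2) ^ m := by
                rw [← mul_pow]; norm_num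
              have h10 : (3 ^ m : ℝ) ^ 2 = 9 ^ m := by
                rw [← pow_mul, mul_comm, pow_mul]; norm_num
              rw [h9, mul_pow, h10]
              have h11 : (9 : ℝ) ^ m ≠ 0 := by positivity
              field_simp
              ring
      have h6 : (1 / 2 : ℝ) ^ (m + 1) = (1 / 2) ^ m / 2 := by rw [pow_succ]; ring
      have h7 : b / (8 * E ^ 2) * (1 - (1 / 2) ^ (m + 1)) =
          b / (8 * E ^ 2) * (1 - (1 / 2) ^ m) + b / (16 * E ^ 2) * (1 / 2) ^ m := by
        rw [h6]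
        field_simp
        ring
      rw [h7]
      linarith
  have h3 := h2 n le_rfl
  rw [pow_zero, mul_one, intervalIntegral.integral_of_le (by linarith [h1 n])] at h3
  refine h3.trans ?_
  have h4 : (0 : ℝ) ≤ (1 / 2) ^ n := by positivity
  have h5 : 0 ≤ b / (8 * E ^ 2) := by positivity
  nlinarith

lemma e5_T2 {w : ℝ → ℝ} (hw : Wt w) (c E ρ H : ℝ) (hE : 0 < E) (hρ : 0 < ρ)
    (hz : ∀ t ∈ Icc (c - 4 * ρ) c, w t = 0) (hH : 4 * ρ ≤ H) :
    ∫ t in FF c E, w t * (1 / (t - c) ^ 2) ≤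
      (∫ t in Ioc (c + 4 * E) (c + H), w t * (1 / (t - c) ^ 2)) +
        ∫ t in FF c ρ, w t * (1 / (t - c) ^ 2) := by
  have hk0 : ∀ t, 0 ≤ w t * (1 / (t - c) ^ 2) := fun t =>
    mul_nonneg (hw.nn t) (by positivity)
  have hiE := e5_int_far2 hw c E hE
  have hiρ := e5_int_far2 hw c ρ hρ
  have h1 := integral_inter_add_sdiff (s := FF c E) (t := FF c ρ) (FF_meas c ρ) (μ := volume) hiE
  have h2 : ∫ t in FF c E ∩ FF c ρ, w t * (1 / (t - c) ^ 2) ≤
      ∫ t in FF c ρ, w t * (1 / (t - c) ^ 2) :=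
    setIntegral_mono_set hiρ (Eventually.of_forall hk0)
      (HasSubset.Subset.eventuallyLE inter_subset_right)
  have hsub : FF c E \ FF c ρ ⊆ Icc (c - 4 * ρ) c ∪ Ioc (c + 4 * E) (c + H) := by
    intro t ht
    obtain ⟨h3, h4⟩ := ht
    unfold FF at h3 h4
    rw [Set.mem_ofPred_eq] at h3 h4
    rw [not_lt] at h4
    rcases le_or_gt t c with h5 | h5
    · left
      rw [abs_of_nonpos (by linarith)] at h4
      exact ⟨by linarith, h5⟩
    · right
      rw [abs_of_pos (by linarith)] at h3 h4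
      exact ⟨by linarith, by linarith⟩
  have hi1 : IntegrableOn (fun t => w t * (1 / (t - c) ^ 2)) (Icc (c - 4 * ρ) c) := by
    refine IntegrableOn.congr_fun (f := fun _ => (0 : ℝ)) integrableOn_zero (fun t ht => ?_)
      measurableSet_Icc
    simp only
    rw [hz t ht, zero_mul]
  have hi2 : IntegrableOn (fun t => w t * (1 / (t - c) ^ 2)) (Ioc (c + 4 * E) (c + H)) :=
    (e5_int_k hw c (c + 4 * E) (c + H) (by linarith)).mono_set Ioc_subset_Icc_self
  have h3 : ∫ t in FF c E \ FF c ρ, w t * (1 / (t - c) ^ 2) ≤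
      ∫ t in Icc (c - 4 * ρ) c ∪ Ioc (c + 4 * E) (c + H), w t * (1 / (t - c) ^ 2) :=
    setIntegral_mono_set (hi1.union hi2) (Eventually.of_forall hk0)
      (HasSubset.Subset.eventuallyLE hsub)
  have hdis : Disjoint (Icc (c - 4 * ρ) c) (Ioc (c + 4 * E) (c + H)) := by
    rw [Set.disjoint_left]
    intro t ht1 ht2
    linarith [ht1.2, ht2.1]
  rw [setIntegral_union hdis measurableSet_Ioc hi1 hi2] at h3
  have h4 : ∫ t in Icc (c - 4 * ρ) c, w t * (1 / (t - c) ^ 2) = 0 := by
    rw [setIntegral_congr_fun (g := fun _ => (0 : ℝ)) measurableSet_Icc (fun t ht => ?_)]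
    · simp
    · simp only
      rw [hz t ht, zero_mul]
  linarith

end Pool.Agent.Helper63.CV
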