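import Pool.Agent.Helper36.CV.StmtsE
import Pool.Agent.Helper63.CV.E5c

/-! Geometry of a short gap, and the Cauchy integral. -/

set_option autoImplicit false

namespace Pool.Agent.Helper63.CV

open Filter Topology MeasureTheory Set
open Pool.Agent.Helper36.CV

lemma e5_prod (a b t : ℝ) : (t - a) * (t - b) = (t - (a + b) / 2) ^ 2 - ((b - a) / 2) ^ 2 := by
  ring

lemma e5_qr_abs (a b t : ℝ) : |qr a b t| = Real.sqrt ((t - (a + b) / 2) ^ 2 - ((b - a) / 2) ^ 2) := by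
  rw [← e5_prod]
  unfold qr
  split_ifs
  · exact abs_of_nonneg (Real.sqrt_nonneg _)
  · rw [abs_neg]
    exact abs_of_nonneg (Real.sqrt_nonneg _)

lemma e5_qr_meas (a b : ℝ) : Measurable (fun t => qr a b t) := by
  unfold qr
  refine Measurable.ite measurableSet_Ici ?_ ?_
  · fun_prop
  · fun_prop

/-- lower bound for `|q|` -/
lemma e5_q_low (a b t k : ℝ) (hk : 0 ≤ k)
    (h : k ^ 2 + ((b - a) / 2) ^ 2 ≤ (t - (a + b) / 2) ^ 2) : k ≤ |qr a b t| := by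
  rw [e5_qr_abs]
  refine Real.le_sqrt_of_sq_le ?_
  linarith

/-- far estimates -/
lemma e5_far_q (c E a b t : ℝ) (hE : 0 < E) (hab : a < b) (ha : c + E / 5 ≤ a)
    (hb : b ≤ c + 2 * E) (hs : b - a ≤ 3 / 100 * E) (ht : t ∈ FF c E) :
    |1 / qr a b t - 1 / (t - c)| ≤ 12 * E * (1 / (t - c) ^ 2) ∧
    |1 / (qr a b t * (t - (a + b) / 2))| ≤ 8 * (1 / (t - c) ^ 2) := by
  unfold FF at ht
  rw [Set.mem_ofPred_eq] at ht
  obtain ⟨T, hT⟩ : ∃ T : ℝ, T = |t - c| := ⟨_, rfl⟩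
  obtain ⟨m, hm⟩ : ∃ m : ℝ, m = (a + b) / 2 := ⟨_, rfl⟩
  obtain ⟨h, hh⟩ : ∃ h : ℝ, h = (b - a) / 2 := ⟨_, rfl⟩
  rw [← hT] at ht
  have hT0 : 0 < T := by linarith
  have hh0 : 0 < h := by rw [hh]; linarith
  have hh1 : h ≤ 3 / 200 * E := by rw [hh]; linarith
  have hmc : |m - c| ≤ 2 * E := by
    rw [hm, abs_le]
    constructor <;> linarith
  have hτ : T / 2 ≤ |t - m| := by
    have h1 : |t - c| ≤ |t - m| + |m - c| := abs_sub_le t m c
    rw [← hT] at h1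
    linarith
  have hτ2 : (T / 2) ^ 2 ≤ (t - m) ^ 2 := by
    rw [← sq_abs (t - m)]
    exact pow_le_pow_left₀ (by linarith) hτ 2
  have hhT : h ≤ T / 200 := by linarith
  have hq1 : T / 4 ≤ |qr a b t| := by
    refine e5_q_low a b t (T / 4) (by linarith) ?_
    rw [← hm, ← hh]
    nlinarith
  have hq0 : 0 < |qr a b t| := by linarith
  -- sign
  have hsgn : |qr a b t - (t - m)| ≤ h := by
    have h1 : |t - m| - h ≤ |qr a b t| := by
      refine e5_q_low a b t (|t - m| - h) (by linarith) ?_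
      rw [← hm, ← hh, ← sq_abs (t - m)]
      nlinarith [abs_nonneg (t - m)]
    have h2 : |qr a b t| ≤ |t - m| := by
      rw [e5_qr_abs, ← hm, ← hh, ← Real.sqrt_sq_eq_abs]
      exact Real.sqrt_le_sqrt (by nlinarith)
    rcases le_or_gt t c with h3 | h3
    · have h4 : t - m < 0 := by
        rw [hm]
        linarith
      have h5 : qr a b t ≤ 0 := by
        unfold qr
        rw [if_neg (by linarith)]
        linarith [Real.sqrt_nonneg ((t - a) * (t - b))]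
      rw [abs_of_nonpos h5, abs_of_neg h4] at h1 h2
      rw [abs_le]
      constructor <;> linarith
    · have h4 : T = t - c := by rw [hT, abs_of_pos (by linarith)]
      have h5 : 0 < t - m := by
        rw [hm]
        linarith
      have h6 : 0 ≤ qr a b t := by
        unfold qr
        rw [if_pos (by linarith)]
        exact Real.sqrt_nonneg _
      rw [abs_of_nonneg h6, abs_of_pos h5] at h1 h2
      rw [abs_le]
      constructor <;> linarith
  have hqc : |(t - c) - qr a b t| ≤ 3 * E := by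
    have h1 : (t - c) - qr a b t = (m - c) - (qr a b t - (t - m)) := by ring
    rw [h1]
    refine (abs_sub _ _).trans ?_
    linarith
  have htc : t - c ≠ 0 := by
    intro h0
    rw [h0, abs_zero] at hT
    linarith
  have hq : qr a b t ≠ 0 := by
    intro h0
    rw [h0, abs_zero] at hq0
    exact lt_irrefl _ hq0
  have hTsq : (t - c) ^ 2 = T ^ 2 := by rw [hT, sq_abs]
  constructor
  · have h1 : 1 / qr a b t - 1 / (t - c) = ((t - c) - qr a b t) / (qr a b t * (t - c)) := by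
      field_simp
    rw [h1, abs_div, abs_mul, ← hT, hTsq, mul_one_div,
      div_le_div_iff₀ (mul_pos hq0 hT0) (by positivity)]
    have h2 : T / 4 * T ≤ |qr a b t| * T := mul_le_mul_of_nonneg_right hq1 hT0.le
    calc |t - c - qr a b t| * T ^ 2 ≤ 3 * E * T ^ 2 :=
          mul_le_mul_of_nonneg_right hqc (by positivity)
      _ = 12 * E * (T / 4 * T) := by ring
      _ ≤ 12 * E * (|qr a b t| * T) := mul_le_mul_of_nonneg_left h2 (by linarith)
  · rw [← hm, abs_div, abs_mul, abs_one, hTsq, mul_one_div,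
      div_le_div_iff₀ (mul_pos hq0 (by linarith)) (by positivity), one_mul]
    have h2 : T / 4 * (T / 2) ≤ |qr a b t| * |t - m| :=
      mul_le_mul hq1 hτ (by linarith) (abs_nonneg _)
    linarith

/-- middle estimates -/
lemma e5_mid_q (E a b t : ℝ) (hE : 0 < E) (hab : a < b) (hs : b - a ≤ 3 / 100 * E)
    (ht : t ∉ Icc ((a + b) / 2 - E / 10) ((a + b) / 2 + E / 10)) :
    |1 / qr a b t| ≤ 12 / E ∧ |1 / (qr a b t * (t - (a + b) / 2))| ≤ 120 / E ^ 2 := by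
  obtain ⟨m, hm⟩ : ∃ m : ℝ, m = (a + b) / 2 := ⟨_, rfl⟩
  obtain ⟨h, hh⟩ : ∃ h : ℝ, h = (b - a) / 2 := ⟨_, rfl⟩
  rw [← hm] at ht ⊢
  have hh0 : 0 < h := by rw [hh]; linarith
  have hh1 : h ≤ 3 / 200 * E := by rw [hh]; linarith
  have hτ : E / 10 ≤ |t - m| := by
    by_contra hcon
    rw [not_le, abs_lt] at hcon
    exact ht ⟨by linarith [hcon.1], by linarith [hcon.2]⟩
  have hτ2 : (E / 10) ^ 2 ≤ (t - m) ^ 2 := by
    rw [← sq_abs (t - m)]
    exact pow_le_pow_left₀ (by linarith) hτ 2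
  have hq1 : E / 12 ≤ |qr a b t| := by
    refine e5_q_low a b t (E / 12) (by linarith) ?_
    rw [← hm, ← hh]
    nlinarith
  have hq0 : 0 < |qr a b t| := by linarith
  constructor
  · rw [abs_div, abs_one, div_le_div_iff₀ hq0 hE]
    linarith
  · rw [abs_div, abs_mul, abs_one, div_le_div_iff₀ (mul_pos hq0 (by linarith)) (by positivity)]
    have h2 : E / 12 * (E / 10) ≤ |qr a b t| * |t - m| :=
      mul_le_mul hq1 hτ (by linarith) (abs_nonneg _)
    linarith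

/-- the left tail -/
lemma e5_left_q (c a b t k : ℝ) (hab : a < b) (hX : c < (a + b) / 2)
    (hk : k ^ 2 ≤ 1 / 2) (hk0 : 0 ≤ k) (hs : (b - a) / 2 ≤ k * ((a + b) / 2 - c)) (ht : t < c) :
    1 / (Real.sqrt (c - t) * |qr a b t| * |t - (a + b) / 2|) ≤
      (1 + k ^ 2) * (1 / (Real.sqrt (c - t) * ((a + b) / 2 - t) ^ 2)) := by
  obtain ⟨m, hm⟩ : ∃ m : ℝ, m = (a + b) / 2 := ⟨_, rfl⟩
  obtain ⟨h, hh⟩ : ∃ h : ℝ, h = (b - a) / 2 := ⟨_, rfl⟩
  rw [← hm] at hX hs ⊢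
  rw [← hh] at hs
  have hh0 : 0 < h := by rw [hh]; linarith
  have hm0 : 0 < m - t := by linarith
  have h1 : h ≤ k * (m - t) := hs.trans (mul_le_mul_of_nonneg_left (by linarith) hk0)
  have h2 : h ^ 2 ≤ k ^ 2 * (m - t) ^ 2 := by
    rw [← mul_pow]
    exact pow_le_pow_left₀ hh0.le h1 2
  have hk4 : 1 ≤ (1 + k ^ 2) ^ 2 * (1 - k ^ 2) := by nlinarith [sq_nonneg k, sq_nonneg (k ^ 2)]
  have hq1 : (m - t) / (1 + k ^ 2) ≤ |qr a b t| := by
    refine e5_q_low a b t _ (by positivity) ?_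
    rw [← hm, ← hh, div_pow]
    have h3 : (m - t) ^ 2 / (1 + k ^ 2) ^ 2 ≤ (m - t) ^ 2 * (1 - k ^ 2) := by
      rw [div_le_iff₀ (by positivity)]
      have h4 : (m - t) ^ 2 * (1 - k ^ 2) * (1 + k ^ 2) ^ 2 =
          (m - t) ^ 2 * ((1 + k ^ 2) ^ 2 * (1 - k ^ 2)) := by ring
      rw [h4]
      exact le_mul_of_one_le_right (by positivity) hk4
    have h5 : (t - m) ^ 2 = (m - t) ^ 2 := by ring
    rw [h5]
    linarith
  have hst : 0 < Real.sqrt (c - t) := Real.sqrt_pos.mpr (by linarith)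
  have hq0 : 0 < |qr a b t| := lt_of_lt_of_le (by positivity) hq1
  rw [abs_sub_comm t m, abs_of_pos hm0, mul_one_div, div_le_div_iff₀ (by positivity)
    (by positivity), one_mul]
  rw [div_le_iff₀ (by positivity)] at hq1
  have h6 : 0 ≤ Real.sqrt (c - t) * (m - t) := by positivity
  calc Real.sqrt (c - t) * (m - t) ^ 2 = Real.sqrt (c - t) * (m - t) * (m - t) := by ring
    _ ≤ Real.sqrt (c - t) * (m - t) * (|qr a b t| * (1 + k ^ 2)) :=
        mul_le_mul_of_nonneg_left hq1 h6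
    _ = (1 + k ^ 2) * (Real.sqrt (c - t) * |qr a b t| * (m - t)) := by ring

/-- the Cauchy integral is nearly constant -/
lemma e5_psi {w : ℝ → ℝ} (hw : Wt w) (c E Q ε A Ψ : ℝ) (hE : 0 < E) (hA : 0 < A) (hQ : 1 ≤ Q)
    (hε : 0 < ε) (hsm : 100 * Q * ε ≤ 1)
    (hM : ∫ t in Icc (c - 4 * E) (c + 4 * E), w t ≤ Q * ε ^ 2 * E * A)
    (hT : ∫ t in FF c E, w t * (1 / (t - c) ^ 2) ≤ Q * ε ^ 2 * A / E) (g : ℂ → ℂ)
    (hg : ∀ z : ℂ, 0 < z.im → g z = ((1 / Real.pi : ℝ) : ℂ) *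
      ∫ t : ℝ, ((w t : ℝ) : ℂ) / ((t : ℂ) - z))
    (z₀ : ℂ) (hz₀r : z₀.re = c) (hz₀i : z₀.im = E) (hA' : A = ‖g z₀‖)
    (harg : |(g z₀).arg| ≤ 1)
    (hΨ : Ψ = (1 / Real.pi) * ∫ t in FF c E, w t * (1 / (t - c))) :
    |Ψ - A| ≤ 17 * Q * ε ^ 2 * A ∧ ∀ z : ℂ, c ≤ z.re → z.re ≤ c + 3 * E → ε * E ≤ z.im →
      z.im ≤ E → ‖g z - A‖ ≤ 35 * Q * ε * A := by
  have hpi := Real.pi_gt_three
  have hpi0 : 0 < Real.pi := Real.pi_pos
  have hpi1 : 1 / Real.pi ≤ 1 := by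
    rw [div_le_one hpi0]
    linarith
  have hM0 : 0 ≤ ∫ t in Icc (c - 4 * E) (c + 4 * E), w t :=
    integral_nonneg (fun t => hw.nn t)
  have hT0 : 0 ≤ ∫ t in FF c E, w t * (1 / (t - c) ^ 2) :=
    integral_nonneg (fun t => mul_nonneg (hw.nn t) (by positivity))
  have key : ∀ z : ℂ, c ≤ z.re → z.re ≤ c + 3 * E → 0 < z.im → z.im ≤ E →
      ‖g z - Ψ‖ ≤ Q * ε ^ 2 * E * A / z.im + 16 * Q * ε ^ 2 * A := by
    intro z h1 h2 h3 h4
    have hre : |z.re - c| ≤ 3 * E := by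
      rw [abs_le]
      constructor <;> linarith
    have hn : ‖z - (c : ℂ)‖ ≤ 4 * E := by
      refine (Complex.norm_le_abs_re_add_abs_im _).trans ?_
      rw [Complex.sub_re, Complex.sub_im, Complex.ofReal_re, Complex.ofReal_im, sub_zero,
        abs_of_pos h3]
      linarith
    have h5 := e5_G hw c E hE z h3 hn hre
    have h6 : g z - Ψ = ((1 / Real.pi : ℝ) : ℂ) * ((∫ t : ℝ, ((w t : ℝ) : ℂ) / ((t : ℂ) - z)) -
      ((∫ t in FF c E, w t * (1 / (t - c)) : ℝ) : ℂ)) := by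
      rw [hg z h3, hΨ]
      push_cast
      ring
    rw [h6, norm_mul, Complex.norm_real, Real.norm_eq_abs, abs_of_pos (by positivity)]
    have h7 : (∫ t in Icc (c - 4 * E) (c + 4 * E), w t) / z.im ≤ Q * ε ^ 2 * E * A / z.im :=
      div_le_div_of_nonneg_right hM h3.le
    have h8 : 16 * E * ∫ t in FF c E, w t * (1 / (t - c) ^ 2) ≤ 16 * E * (Q * ε ^ 2 * A / E) :=
      mul_le_mul_of_nonneg_left hT (by linarith)
    have h9 : 16 * E * (Q * ε ^ 2 * A / E) = 16 * Q * ε ^ 2 * A := by field_simp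
    rw [h9] at h8
    have h10 := norm_nonneg ((∫ t : ℝ, ((w t : ℝ) : ℂ) / ((t : ℂ) - z)) -
      ((∫ t in FF c E, w t * (1 / (t - c)) : ℝ) : ℂ))
    have h11 : 1 / Real.pi * ‖(∫ t : ℝ, ((w t : ℝ) : ℂ) / ((t : ℂ) - z)) -
      ((∫ t in FF c E, w t * (1 / (t - c)) : ℝ) : ℂ)‖ ≤ 1 * ‖(∫ t : ℝ, ((w t : ℝ) : ℂ) /
      ((t : ℂ) - z)) - ((∫ t in FF c E, w t * (1 / (t - c)) : ℝ) : ℂ)‖ :=
      mul_le_mul_of_nonneg_right hpi1 h10
    linarith
  have h1 := key z₀ (by linarith) (by linarith) (by linarith) (by linarith)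
  rw [hz₀i] at h1
  have h2 : Q * ε ^ 2 * E * A / E = Q * ε ^ 2 * A := by field_simp
  rw [h2] at h1
  have h3 : ‖g z₀ - Ψ‖ ≤ 17 * Q * ε ^ 2 * A := by linarith
  have hε1 : ε ≤ 1 / 100 := by nlinarith
  have hsm2 : 17 * Q * ε ^ 2 * A ≤ A / 4 := by
    have h4 : 17 * Q * ε ^ 2 ≤ 1 / 4 := by nlinarith
    calc 17 * Q * ε ^ 2 * A ≤ 1 / 4 * A := mul_le_mul_of_nonneg_right h4 hA.le
      _ = A / 4 := by ring
  have hre : A / 2 ≤ (g z₀).re := by
    rw [← Complex.norm_mul_cos_arg, ← hA']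
    have h4 := Real.one_sub_sq_div_two_le_cos (x := (g z₀).arg)
    have h5 : (g z₀).arg ^ 2 ≤ 1 := by
      rw [← sq_abs]
      exact pow_le_one₀ (abs_nonneg _) harg
    have h6 : 1 / 2 ≤ Real.cos (g z₀).arg := by linarith
    calc A / 2 = A * (1 / 2) := by ring
      _ ≤ A * Real.cos (g z₀).arg := mul_le_mul_of_nonneg_left h6 hA.le
  have hΨ0 : 0 < Ψ := by
    have h4 := Complex.abs_re_le_norm (g z₀ - Ψ)
    rw [Complex.sub_re, Complex.ofReal_re] at h4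
    have h5 := abs_le.mp (h4.trans h3)
    linarith [h5.2]
  have h4 : |Ψ - A| ≤ 17 * Q * ε ^ 2 * A := by
    have h5 := abs_norm_sub_norm_le (g z₀) (Ψ : ℂ)
    rw [Complex.norm_real, Real.norm_eq_abs, abs_of_pos hΨ0, ← hA', abs_sub_comm] at h5
    exact h5.trans h3
  refine ⟨h4, ?_⟩
  intro z hz1 hz2 hz3 hz4
  have hεE : 0 < ε * E := mul_pos hε hE
  have h5 := key z hz1 hz2 (by linarith) hz4
  have h6 : Q * ε ^ 2 * E * A / z.im ≤ Q * ε * A := by
    rw [div_le_iff₀ (by linarith)]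
    have h7 : 0 ≤ Q * ε * A := by positivity
    calc Q * ε ^ 2 * E * A = Q * ε * A * (ε * E) := by ring
      _ ≤ Q * ε * A * z.im := mul_le_mul_of_nonneg_left hz3 h7
  have h7 : ‖g z - A‖ ≤ ‖g z - Ψ‖ + ‖(Ψ : ℂ) - A‖ := by
    have h8 : g z - A = (g z - Ψ) + ((Ψ : ℂ) - A) := by ring
    rw [h8]
    exact norm_add_le _ _
  have h8 : ‖(Ψ : ℂ) - A‖ = |Ψ - A| := by
    rw [← Complex.ofReal_sub, Complex.norm_real, Real.norm_eq_abs]
  rw [h8] at h7
  have h9 : Q * ε ^ 2 * A ≤ Q * ε * A := by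
    have h10 : 0 ≤ Q * ε * A := by positivity
    calc Q * ε ^ 2 * A = Q * ε * A * ε := by ring
      _ ≤ Q * ε * A * 1 := mul_le_mul_of_nonneg_left (by linarith) h10
      _ = Q * ε * A := by ring
  have h10 : 0 ≤ Q * ε * A := by positivity
  linarith

end Pool.Agent.Helper63.CV
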