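import Pool.Agent.Helper63.CV.E5d

/-! Mass near an edge. -/

set_option autoImplicit false

namespace Pool.Agent.Helper63.CV

open Filter Topology MeasureTheory Set
open Pool.Agent.Helper36.CV

variable {Hm Hp : ℝ} {C : Set ℝ} {cd : CD Hm Hp C}

lemma e5_N_mono (x y : ℝ) (h : x ≤ y) : Nf cd x ≤ Nf cd y := cd.re_mono x y h

lemma e5_wt (e : Edge cd) (hP : ∀ x : ℝ, 0 ≤ vf cd x)
    (h4 : ∀ z ∈ Uo, Integrable (fun t : ℝ => ((e.wt t : ℝ) : ℂ) / ((t : ℂ) - z))) :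
    Wt e.wt := by
  refine ⟨fun t => ?_, fun z hz => h4 z hz⟩
  unfold Edge.wt
  split_ifs with h
  · exact div_nonneg (hP t) (Real.sqrt_nonneg _)
  · rw [not_lt] at h
    refine div_nonneg ?_ (Real.sqrt_nonneg _)
    have h1 : Nf cd t ≤ Nf cd e.c := e5_N_mono t e.c h
    unfold Edge.N
    linarith

lemma e5_wt_zero (e : Edge cd) (t : ℝ) (ht : t ∈ Icc (e.c - e.δ) e.c) : e.wt t = 0 := by
  unfold Edge.wt
  rw [if_neg (not_lt.mpr ht.2)]
  unfold Edge.N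
  rw [e.flat t ht, sub_self, zero_div]

lemma e5_wt_right (e : Edge cd) (t : ℝ) (ht : e.c < t) :
    e.wt t = vf cd t / Real.sqrt (t - e.c) := by
  unfold Edge.wt
  rw [if_pos ht]

/-- comparison of the amplitudes -/
def GB (e : Edge cd) (ε K R : ℝ) : Prop :=
  ∀ z₁ ∈ Uo, ∀ z₂ ∈ Uo, ‖z₁ - e.c‖ ≤ R / 4 → ‖z₂ - e.c‖ ≤ R / 4 →
    |Real.log ‖e.g z₁‖ - Real.log ‖e.g z₂‖| ≤
      K * (ε * (1 + Real.log (1 + ‖z₁ - z₂‖ / z₁.im) + Real.log (1 + ‖z₁ - z₂‖ / z₂.im)) +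
        ‖z₁ - z₂‖ / R)

lemma e5_g_pos (e : Edge cd) (z : ℂ) (hz : 0 < z.im) : 0 < ‖e.g z‖ := by
  rw [norm_pos_iff]
  unfold Edge.g
  refine div_ne_zero ?_ ?_
  · intro h
    have h1 := congrArg Complex.im h
    rw [Complex.sub_im, Complex.ofReal_im, sub_zero, Complex.zero_im] at h1
    exact (cd.im_pos z hz).ne' h1
  · rw [Complex.cpow_ne_zero_iff]
    left
    intro h
    have h1 := congrArg Complex.im h
    rw [Complex.sub_im, Complex.ofReal_im, sub_zero, Complex.zero_im] at h1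
    exact hz.ne' h1

lemma e5_amp (e : Edge cd) (ε K R E δ : ℝ) (k : ℕ) (hε : 0 < ε) (hK : 1 ≤ K) (hKε : 12 * (K * ε) ≤ 1)
    (hR : 0 < R) (hE : 0 < E) (hδ : 0 < δ) (hER : 200 * E ≤ R) (hδR : 200 * δ ≤ R)
    (h1 : E ≤ δ * 3 ^ (k + 1)) (h2 : δ ≤ E * 3 ^ (k + 1)) (hG : GB e ε K R) :
    ‖e.g ((e.c + δ : ℝ) + (δ : ℂ) * Complex.I)‖ ≤
      ‖e.g ((e.c : ℂ) + (E : ℂ) * Complex.I)‖ * (Real.exp (1 + K) * (3 / 2) ^ k) := by
  obtain ⟨z₁, hz₁⟩ : ∃ z₁ : ℂ, z₁ = (e.c + δ : ℝ) + (δ : ℂ) * Complex.I := ⟨_, rfl⟩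
  obtain ⟨z₂, hz₂⟩ : ∃ z₂ : ℂ, z₂ = (e.c : ℂ) + (E : ℂ) * Complex.I := ⟨_, rfl⟩
  rw [← hz₁, ← hz₂]
  have hr1 : z₁.re = e.c + δ := by rw [hz₁]; simp
  have hi1 : z₁.im = δ := by rw [hz₁]; simp
  have hr2 : z₂.re = e.c := by rw [hz₂]; simp
  have hi2 : z₂.im = E := by rw [hz₂]; simp
  have hn1 : ‖z₁ - e.c‖ ≤ R / 4 := by
    refine (Complex.norm_le_abs_re_add_abs_im _).trans ?_
    rw [Complex.sub_re, Complex.sub_im, Complex.ofReal_re, Complex.ofReal_im, hr1, hi1]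
    have h3 : e.c + δ - e.c = δ := by ring
    rw [h3, sub_zero, abs_of_pos hδ]
    linarith
  have hn2 : ‖z₂ - e.c‖ ≤ R / 4 := by
    refine (Complex.norm_le_abs_re_add_abs_im _).trans ?_
    rw [Complex.sub_re, Complex.sub_im, Complex.ofReal_re, Complex.ofReal_im, hr2, hi2]
    rw [sub_self, sub_zero, abs_zero, abs_of_pos hE]
    linarith
  obtain ⟨P, hP⟩ : ∃ P : ℝ, P = (3 : ℝ) ^ (k + 1) := ⟨_, rfl⟩
  have hP1 : 1 ≤ P := by rw [hP]; exact one_le_pow₀ (by norm_num)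
  rw [← hP] at h1 h2
  have hd : ‖z₁ - z₂‖ ≤ δ + |δ - E| := by
    refine (Complex.norm_le_abs_re_add_abs_im _).trans ?_
    rw [Complex.sub_re, Complex.sub_im, hr1, hi1, hr2, hi2]
    have h3 : e.c + δ - e.c = δ := by ring
    rw [h3, abs_of_pos hδ]
  have hd1 : ‖z₁ - z₂‖ ≤ δ * (2 * P) := by
    refine hd.trans ?_
    rcases abs_cases (δ - E) with ⟨h3, h4⟩ | ⟨h3, h4⟩ <;> rw [h3] <;> nlinarith
  have hd2 : ‖z₁ - z₂‖ ≤ E * (2 * P) := by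
    refine hd.trans ?_
    rcases abs_cases (δ - E) with ⟨h3, h4⟩ | ⟨h3, h4⟩ <;> rw [h3] <;> nlinarith
  have hd3 : ‖z₁ - z₂‖ ≤ R / 100 := by
    refine hd.trans ?_
    rcases abs_cases (δ - E) with ⟨h3, h4⟩ | ⟨h3, h4⟩ <;> rw [h3] <;> linarith
  have hlog3 : Real.log 3 ≤ 2 := (Real.log_le_sub_one_of_pos (by norm_num)).trans (by norm_num)
  have hlogP : Real.log (1 + 2 * P) ≤ 2 * (k + 2) := by
    have h3 : 1 + 2 * P ≤ 3 ^ (k + 2) := by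
      rw [pow_succ, ← hP]
      linarith
    refine (Real.log_le_log (by linarith) h3).trans ?_
    rw [Real.log_pow]
    push_cast
    have h4 : (0 : ℝ) ≤ k + 2 := by positivity
    calc ((k : ℝ) + 2) * Real.log 3 ≤ (k + 2) * 2 := mul_le_mul_of_nonneg_left hlog3 h4
      _ = 2 * (k + 2) := by ring
  have hl1 : Real.log (1 + ‖z₁ - z₂‖ / z₁.im) ≤ 2 * (k + 2) := by
    refine le_trans (Real.log_le_log ?_ ?_) hlogP
    · rw [hi1]
      positivity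
    · rw [hi1]
      have h3 : ‖z₁ - z₂‖ / δ ≤ 2 * P := by
        rw [div_le_iff₀ hδ]
        linarith
      linarith
  have hl2 : Real.log (1 + ‖z₁ - z₂‖ / z₂.im) ≤ 2 * (k + 2) := by
    refine le_trans (Real.log_le_log ?_ ?_) hlogP
    · rw [hi2]
      positivity
    · rw [hi2]
      have h3 : ‖z₁ - z₂‖ / E ≤ 2 * P := by
        rw [div_le_iff₀ hE]
        linarith
      linarith
  have hl3 : ‖z₁ - z₂‖ / R ≤ 1 / 100 := by
    rw [div_le_iff₀ hR]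
    linarith
  have hmain := hG z₁ (by unfold Uo; rw [Set.mem_ofPred_eq, hi1]; exact hδ) z₂
    (by unfold Uo; rw [Set.mem_ofPred_eq, hi2]; exact hE) hn1 hn2
  have hg1 : 0 < ‖e.g z₁‖ := e5_g_pos e z₁ (by rw [hi1]; exact hδ)
  have hg2 : 0 < ‖e.g z₂‖ := e5_g_pos e z₂ (by rw [hi2]; exact hE)
  have h3 := (le_abs_self _).trans hmain
  have h4 : K * (ε * (1 + Real.log (1 + ‖z₁ - z₂‖ / z₁.im) +
      Real.log (1 + ‖z₁ - z₂‖ / z₂.im)) + ‖z₁ - z₂‖ / R) ≤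
      K * (ε * (9 + 4 * k) + 1 / 100) := by
    refine mul_le_mul_of_nonneg_left ?_ (by linarith)
    have h5 : ε * (1 + Real.log (1 + ‖z₁ - z₂‖ / z₁.im) +
      Real.log (1 + ‖z₁ - z₂‖ / z₂.im)) ≤ ε * (9 + 4 * k) :=
      mul_le_mul_of_nonneg_left (by linarith) hε.le
    linarith
  have h5 : K * (ε * (9 + 4 * k) + 1 / 100) ≤ (1 + K) + (k : ℝ) / 3 := by
    have h6 : (0 : ℝ) ≤ 9 + 4 * k := by positivity
    have h7 : 12 * (K * ε) * (9 + 4 * k) ≤ 1 * (9 + 4 * k) := mul_le_mul_of_nonneg_right hKε h6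
    have h8 : K * (ε * (9 + 4 * k) + 1 / 100) = (12 * (K * ε) * (9 + 4 * k)) / 12 + K / 100 := by
      ring
    rw [h8]
    linarith
  have h6 : Real.log ‖e.g z₁‖ ≤ Real.log ‖e.g z₂‖ + ((1 + K) + (k : ℝ) / 3) := by linarith
  have h7 : ‖e.g z₁‖ ≤ ‖e.g z₂‖ * Real.exp ((1 + K) + (k : ℝ) / 3) := by
    have h8 := Real.exp_le_exp.mpr h6
    rw [Real.exp_log hg1, Real.exp_add, Real.exp_log hg2] at h8
    exact h8
  refine h7.trans ?_
  refine mul_le_mul_of_nonneg_left ?_ hg2.le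
  rw [Real.exp_add]
  refine mul_le_mul_of_nonneg_left ?_ (Real.exp_pos _).le
  have h8 : Real.exp ((k : ℝ) / 3) = (Real.exp (1 / 3)) ^ k := by
    rw [← Real.exp_nat_mul]
    congr 1
    ring
  rw [h8]
  refine pow_le_pow_left₀ (Real.exp_pos _).le ?_ k
  have h9 : (1 / 3 : ℝ) ≤ Real.log (3 / 2) := by
    have h10 := Real.one_sub_inv_le_log_of_pos (by norm_num : (0 : ℝ) < 3 / 2)
    refine le_trans ?_ h10
    norm_num
  calc Real.exp (1 / 3) ≤ Real.exp (Real.log (3 / 2)) := Real.exp_le_exp.mpr h9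
    _ = 3 / 2 := Real.exp_log (by norm_num)

/-- mass of a shell -/
def SB (e : Edge cd) (ε K R : ℝ) : Prop :=
  ∀ δ : ℝ, 0 < δ → 200 * δ ≤ R →
    ∫ t in Icc (e.c + δ / 2) (e.c + 3 * δ / 2), vf cd t / Real.sqrt (t - e.c) ≤
      K * ε ^ 2 * δ * ‖e.g ((e.c + δ : ℝ) + (δ : ℂ) * Complex.I)‖

lemma e5_shell (e : Edge cd) (ε K K' R E δ : ℝ) (k : ℕ) (hε : 0 < ε) (hK : 1 ≤ K)
    (hK' : 1 ≤ K') (hKε : 12 * (K * ε) ≤ 1)
    (hR : 0 < R) (hE : 0 < E) (hδ : 0 < δ) (hER : 200 * E ≤ R) (hδR : 200 * δ ≤ R)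
    (h1 : E ≤ δ * 3 ^ (k + 1)) (h2 : δ ≤ E * 3 ^ (k + 1)) (hG : GB e ε K R)
    (hS : SB e ε K' R) :
    ∫ t in Icc (e.c + δ / 2) (e.c + 3 * δ / 2), e.wt t ≤
      (K' * Real.exp (1 + K)) * ε ^ 2 * δ * ‖e.g ((e.c : ℂ) + (E : ℂ) * Complex.I)‖ *
        (3 / 2) ^ k := by
  have h3 : ∫ t in Icc (e.c + δ / 2) (e.c + 3 * δ / 2), e.wt t =
      ∫ t in Icc (e.c + δ / 2) (e.c + 3 * δ / 2), vf cd t / Real.sqrt (t - e.c) := by
    refine setIntegral_congr_fun measurableSet_Icc (fun t ht => ?_)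
    exact e5_wt_right e t (by linarith [ht.1])
  rw [h3]
  refine (hS δ hδ hδR).trans ?_
  have h4 := e5_amp e ε K R E δ k hε hK hKε hR hE hδ hER hδR h1 h2 hG
  calc K' * ε ^ 2 * δ * ‖e.g ((e.c + δ : ℝ) + (δ : ℂ) * Complex.I)‖ ≤
      K' * ε ^ 2 * δ * (‖e.g ((e.c : ℂ) + (E : ℂ) * Complex.I)‖ *
        (Real.exp (1 + K) * (3 / 2) ^ k)) := mul_le_mul_of_nonneg_left h4 (by positivity)
    _ = (K' * Real.exp (1 + K)) * ε ^ 2 * δ * ‖e.g ((e.c : ℂ) + (E : ℂ) * Complex.I)‖ *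
        (3 / 2) ^ k := by ring

/-- lower bound for the amplitude -/
lemma e5_growth (e : Edge cd) (ε K R : ℝ) (hε : 0 < ε) (hK : 1 ≤ K) (hKε : 12 * (K * ε) ≤ 1)
    (hR : 0 < R) (hG : GB e ε K R) :
    ∃ c1 : ℝ, 0 < c1 ∧ ∀ E : ℝ, 0 < E → 8 * E ≤ R →
      c1 * Real.sqrt E ≤ ‖e.g ((e.c : ℂ) + (E : ℂ) * Complex.I)‖ := by
  obtain ⟨z₂, hz₂⟩ : ∃ z₂ : ℂ, z₂ = (e.c : ℂ) + ((R / 8 : ℝ) : ℂ) * Complex.I := ⟨_, rfl⟩
  have hr2 : z₂.re = e.c := by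
    rw [hz₂, Complex.add_re, Complex.ofReal_re, Complex.re_ofReal_mul, Complex.I_re, mul_zero,
      add_zero]
  have hi2 : z₂.im = R / 8 := by
    rw [hz₂, Complex.add_im, Complex.ofReal_im, Complex.im_ofReal_mul, Complex.I_im, mul_one,
      zero_add]
  have hg2 : 0 < ‖e.g z₂‖ := e5_g_pos e z₂ (by rw [hi2]; linarith)
  refine ⟨‖e.g z₂‖ * Real.exp (-(1 + K)) * Real.sqrt (8 / R), by positivity, ?_⟩
  intro E hE hER
  obtain ⟨z₁, hz₁⟩ : ∃ z₁ : ℂ, z₁ = (e.c : ℂ) + (E : ℂ) * Complex.I := ⟨_, rfl⟩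
  rw [← hz₁]
  have hr1 : z₁.re = e.c := by rw [hz₁]; simp
  have hi1 : z₁.im = E := by rw [hz₁]; simp
  have hn1 : ‖z₁ - e.c‖ ≤ R / 4 := by
    refine (Complex.norm_le_abs_re_add_abs_im _).trans ?_
    rw [Complex.sub_re, Complex.sub_im, Complex.ofReal_re, Complex.ofReal_im, hr1, hi1,
      sub_self, sub_zero, abs_zero, abs_of_pos hE]
    linarith
  have hn2 : ‖z₂ - e.c‖ ≤ R / 4 := by
    refine (Complex.norm_le_abs_re_add_abs_im _).trans ?_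
    rw [Complex.sub_re, Complex.sub_im, Complex.ofReal_re, Complex.ofReal_im, hr2, hi2,
      sub_self, sub_zero, abs_zero, abs_of_pos (by linarith)]
    linarith
  have hd : ‖z₁ - z₂‖ ≤ R / 8 - E := by
    refine (Complex.norm_le_abs_re_add_abs_im _).trans ?_
    rw [Complex.sub_re, Complex.sub_im, hr1, hi1, hr2, hi2, sub_self, abs_zero, zero_add,
      abs_of_nonpos (by linarith)]
    linarith
  have hmain := hG z₁ (by unfold Uo; rw [Set.mem_ofPred_eq, hi1]; exact hE) z₂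
    (by unfold Uo; rw [Set.mem_ofPred_eq, hi2]; linarith) hn1 hn2
  have hg1 : 0 < ‖e.g z₁‖ := e5_g_pos e z₁ (by rw [hi1]; exact hE)
  have hq : 1 ≤ R / (8 * E) := by
    rw [le_div_iff₀ (by linarith)]
    linarith
  have hL0 : 0 ≤ Real.log (R / (8 * E)) := Real.log_nonneg hq
  have hl1 : Real.log (1 + ‖z₁ - z₂‖ / z₁.im) ≤ Real.log (R / (8 * E)) := by
    refine Real.log_le_log ?_ ?_
    · rw [hi1]
      positivity
    · rw [hi1]
      have h3 : ‖z₁ - z₂‖ / E ≤ (R / 8 - E) / E := div_le_div_of_nonneg_right hd hE.le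
      have h4 : (R / 8 - E) / E = R / (8 * E) - 1 := by field_simp
      linarith
  have hl2 : Real.log (1 + ‖z₁ - z₂‖ / z₂.im) ≤ 1 := by
    have h3 : ‖z₁ - z₂‖ / z₂.im ≤ 1 := by
      rw [hi2, div_le_one (by linarith)]
      linarith
    have h4 : 0 ≤ ‖z₁ - z₂‖ / z₂.im := by
      rw [hi2]
      positivity
    refine (Real.log_le_sub_one_of_pos (by linarith)).trans ?_
    linarith
  have hl3 : ‖z₁ - z₂‖ / R ≤ 1 / 8 := by
    rw [div_le_iff₀ hR]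
    linarith
  have h4 : K * (ε * (1 + Real.log (1 + ‖z₁ - z₂‖ / z₁.im) +
      Real.log (1 + ‖z₁ - z₂‖ / z₂.im)) + ‖z₁ - z₂‖ / R) ≤
      K * (ε * (2 + Real.log (R / (8 * E))) + 1 / 8) := by
    refine mul_le_mul_of_nonneg_left ?_ (by linarith)
    have h5 : ε * (1 + Real.log (1 + ‖z₁ - z₂‖ / z₁.im) +
      Real.log (1 + ‖z₁ - z₂‖ / z₂.im)) ≤ ε * (2 + Real.log (R / (8 * E))) :=
      mul_le_mul_of_nonneg_left (by linarith) hε.le
    linarith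
  have h5 : K * (ε * (2 + Real.log (R / (8 * E))) + 1 / 8) ≤
      (1 + K) + Real.log (R / (8 * E)) / 2 := by
    have h7 : 12 * (K * ε) * (2 + Real.log (R / (8 * E))) ≤ 1 * (2 + Real.log (R / (8 * E))) :=
      mul_le_mul_of_nonneg_right hKε (by linarith)
    have h8 : K * (ε * (2 + Real.log (R / (8 * E))) + 1 / 8) =
        (12 * (K * ε) * (2 + Real.log (R / (8 * E)))) / 12 + K / 8 := by ring
    rw [h8]
    linarith
  have h6 := (neg_abs_le _).trans' (neg_le_neg (hmain.trans (h4.trans h5)))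
  have hlog : Real.log (‖e.g z₂‖ * Real.exp (-(1 + K)) * Real.sqrt (8 / R) * Real.sqrt E) =
      Real.log ‖e.g z₂‖ - (1 + K) - Real.log (R / (8 * E)) / 2 := by
    have hs1 : 0 < Real.sqrt (8 / R) := Real.sqrt_pos.mpr (by positivity)
    have hs2 : 0 < Real.sqrt E := Real.sqrt_pos.mpr hE
    rw [Real.log_mul (by positivity) hs2.ne', Real.log_mul (by positivity) hs1.ne',
      Real.log_mul hg2.ne' (Real.exp_pos _).ne', Real.log_exp, Real.log_sqrt (by positivity),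
      Real.log_sqrt hE.le, Real.log_div (by norm_num) hR.ne', Real.log_div hR.ne' (by positivity),
      Real.log_mul (by norm_num) hE.ne']
    ring
  rw [← Real.log_le_log_iff (by positivity) hg1, hlog]
  linarith

end Pool.Agent.Helper63.CV
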