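import Pool.Agent.Helper63.CV.E5e

/-! Mass near an edge: the two bounds. -/

set_option autoImplicit false

namespace Pool.Agent.Helper63.CV

open Filter Topology MeasureTheory Set
open Pool.Agent.Helper36.CV

variable {Hm Hp : ℝ} {C : Set ℝ} {cd : CD Hm Hp C}

lemma e5_bounds (e : Edge cd) (ε K K' R : ℝ) (hε : 0 < ε) (hK : 1 ≤ K)
    (hK' : 1 ≤ K') (hKε : 12 * (K * ε) ≤ 1) (hR : 0 < R) (hRδ : R ≤ e.δ) (hW : Wt e.wt)
    (hG : GB e ε K R) (hS : SB e ε K' R) :
    ∃ E0 : ℝ, 0 < E0 ∧ ∀ E : ℝ, 0 < E → E ≤ E0 → 1600 * E ≤ R ∧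
      ∫ t in Icc (e.c - 4 * E) (e.c + 4 * E), e.wt t ≤
        (8 * (K' * Real.exp (1 + K)) + 1) * ε ^ 2 * E *
          ‖e.g ((e.c : ℂ) + (E : ℂ) * Complex.I)‖ ∧
      ∫ t in FF e.c E, e.wt t * (1 / (t - e.c) ^ 2) ≤
        (8 * (K' * Real.exp (1 + K)) + 1) * ε ^ 2 *
          ‖e.g ((e.c : ℂ) + (E : ℂ) * Complex.I)‖ / E := by
  obtain ⟨c1, hc1, hgr⟩ := e5_growth e ε K R hε hK hKε hR hG
  obtain ⟨B, hB⟩ : ∃ B : ℝ, B = ∫ t in FF e.c (R / 1600), e.wt t * (1 / (t - e.c) ^ 2) :=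
    ⟨_, rfl⟩
  have hB0 : 0 ≤ B := by
    rw [hB]
    exact integral_nonneg (fun t => mul_nonneg (hW.nn t) (by positivity))
  obtain ⟨D, hD⟩ : ∃ D : ℝ, D = K' * Real.exp (1 + K) := ⟨_, rfl⟩
  have hD0 : 0 < D := by rw [hD]; positivity
  rw [← hD]
  refine ⟨min (R / 1600) ((ε ^ 2 * c1 / (B + 1)) ^ 2), by positivity, ?_⟩
  intro E hE hEE
  have hER : 1600 * E ≤ R := by
    have := hEE.trans (min_le_left _ _)
    linarith
  have hE2 : Real.sqrt E ≤ ε ^ 2 * c1 / (B + 1) := by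
    rw [Real.sqrt_le_left (by positivity)]
    exact hEE.trans (min_le_right _ _)
  obtain ⟨A, hA⟩ : ∃ A : ℝ, A = ‖e.g ((e.c : ℂ) + (E : ℂ) * Complex.I)‖ := ⟨_, rfl⟩
  have hA1 := hgr E hE (by linarith)
  rw [← hA] at hA1 ⊢
  have hsE : 0 < Real.sqrt E := Real.sqrt_pos.mpr hE
  have hA0 : 0 < A := lt_of_lt_of_le (mul_pos hc1 hsE) hA1
  have hBE : B ≤ ε ^ 2 * A / E := by
    rw [le_div_iff₀ hE]
    rw [le_div_iff₀ (by linarith)] at hE2
    have h1 : B * E = (Real.sqrt E * B) * Real.sqrt E := by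
      have h2 := Real.mul_self_sqrt hE.le
      calc B * E = B * (Real.sqrt E * Real.sqrt E) := by rw [h2]
        _ = (Real.sqrt E * B) * Real.sqrt E := by ring
    rw [h1]
    have h3 : Real.sqrt E * B ≤ ε ^ 2 * c1 := by nlinarith
    calc Real.sqrt E * B * Real.sqrt E ≤ ε ^ 2 * c1 * Real.sqrt E :=
          mul_le_mul_of_nonneg_right h3 hsE.le
      _ = ε ^ 2 * (c1 * Real.sqrt E) := by ring
      _ ≤ ε ^ 2 * A := mul_le_mul_of_nonneg_left hA1 (by positivity)
  refine ⟨hER, ?_, ?_⟩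
  · have h1 := e5_near_sum hW e.c E hE (fun t ht => e5_wt_zero e t
      ⟨by linarith [ht.1], ht.2⟩) (8 / 3 * (D * ε ^ 2 * A * E)) (by positivity) (fun k => by
      have hpk : (0 : ℝ) < 3 ^ k := by positivity
      have hpk1 : (1 : ℝ) ≤ 3 ^ k := one_le_pow₀ (by norm_num)
      have h2 := e5_shell e ε K K' R E (8 * E / 3 / 3 ^ k) k hε hK hK' hKε hR hE (by positivity)
        (by linarith) (by
          have h3 : 8 * E / 3 / 3 ^ k ≤ 8 * E / 3 := div_le_self (by positivity) hpk1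
          linarith) (by
          have h3 : 8 * E / 3 / 3 ^ k * 3 ^ (k + 1) = 8 * E := by
            rw [pow_succ]
            field_simp
          rw [h3]
          linarith) (by
          rw [div_le_iff₀ hpk]
          have h3 : (3 : ℝ) ≤ 3 ^ (k + 1) * 3 ^ k := by
            rw [pow_succ]
            nlinarith
          have h4 : E * 3 ≤ E * (3 ^ (k + 1) * 3 ^ k) := mul_le_mul_of_nonneg_left h3 hE.le
          linarith) hG hS
      rw [← hA, ← hD] at h2
      have h5 : 8 * E / 3 / 3 ^ k / 2 = 4 * E / 3 ^ (k + 1) := by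
        rw [pow_succ]
        field_simp
        ring
      have h6 : 3 * (8 * E / 3 / 3 ^ k) / 2 = 4 * E / 3 ^ k := by
        field_simp
        ring
      rw [h5, h6] at h2
      refine h2.trans (le_of_eq ?_)
      have h7 : (3 / 2 : ℝ) ^ k = 3 ^ k * (1 / 2) ^ k := by
        rw [← mul_pow]; norm_num
      rw [h7]
      field_simp)
    refine h1.trans ?_
    have h8 : 0 ≤ D * ε ^ 2 * A * E := by positivity
    have h9 : 0 ≤ ε ^ 2 * E * A := by positivity
    have h10 : (8 * D + 1) * ε ^ 2 * E * A = 8 * (D * ε ^ 2 * A * E) + ε ^ 2 * E * A := by ring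
    rw [h10]
    linarith
  · have hex : ∃ n : ℕ, R < 1600 * E * 3 ^ n := by
      obtain ⟨n, hn⟩ := pow_unbounded_of_one_lt (R / (1600 * E)) (by norm_num : (1 : ℝ) < 3)
      refine ⟨n, ?_⟩
      rw [div_lt_iff₀ (by linarith)] at hn
      linarith
    classical
    obtain ⟨n, hn⟩ : ∃ n : ℕ, n = Nat.find hex := ⟨_, rfl⟩
    have hn1 : R < 1600 * E * 3 ^ n := by rw [hn]; exact Nat.find_spec hex
    have hn2 : ∀ k < n, 1600 * E * 3 ^ k ≤ R := by
      intro k hk
      rw [hn] at hk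
      exact not_lt.mp (Nat.find_min hex hk)
    have h1 := e5_far_sum hW e.c E hE (12 * (D * ε ^ 2 * A * E)) (by positivity) n
      (fun k hk => by
        have hpk : (0 : ℝ) < 3 ^ k := by positivity
        have hpk1 : (1 : ℝ) ≤ 3 ^ k := one_le_pow₀ (by norm_num)
        have hR2 := hn2 k hk
        have h2 := e5_shell e ε K K' R E (8 * E * 3 ^ k) (k + 1) hε hK hK' hKε hR hE
          (by positivity) (by linarith) (by linarith) (by
            have h3 : (1 : ℝ) ≤ 8 * 3 ^ k * 3 ^ (k + 1 + 1) := by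
              have h4 : (1 : ℝ) ≤ 3 ^ (k + 1 + 1) := one_le_pow₀ (by norm_num)
              nlinarith
            calc E = E * 1 := by ring
              _ ≤ E * (8 * 3 ^ k * 3 ^ (k + 1 + 1)) := mul_le_mul_of_nonneg_left h3 hE.le
              _ = 8 * E * 3 ^ k * 3 ^ (k + 1 + 1) := by ring) (by
            rw [pow_succ, pow_succ]
            nlinarith [mul_pos hE hpk]) hG hS
        rw [← hA, ← hD] at h2
        have h5 : 8 * E * 3 ^ k / 2 = 4 * E * 3 ^ k := by ring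
        have h6 : 3 * (8 * E * 3 ^ k) / 2 = 4 * E * 3 ^ (k + 1) := by
          rw [pow_succ]
          ring
        rw [h5, h6] at h2
        refine h2.trans (le_of_eq ?_)
        have h7 : (9 / 2 : ℝ) ^ k = 3 ^ k * (3 / 2) ^ k := by
          rw [← mul_pow]; norm_num
        rw [h7, pow_succ]
        ring)
    have h2 := e5_T2 hW e.c E (R / 1600) (4 * E * 3 ^ n) hE (by positivity)
      (fun t ht => e5_wt_zero e t ⟨by linarith [ht.1], ht.2⟩) (by linarith)
    rw [← hB] at h2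
    have h3 : 12 * (D * ε ^ 2 * A * E) / (8 * E ^ 2) = 3 / 2 * (D * ε ^ 2 * A / E) := by
      field_simp
      ring
    rw [h3] at h1
    have h4 : (8 * D + 1) * ε ^ 2 * A / E = 8 * (D * ε ^ 2 * A / E) + ε ^ 2 * A / E := by ring
    rw [h4]
    have h5 : 0 ≤ D * ε ^ 2 * A / E := by positivity
    linarith

end Pool.Agent.Helper63.CV
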