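import Pool.Agent.Helper63.CV.E5f

/-! The local law: the function near the edge. -/

set_option autoImplicit false

namespace Pool.Agent.Helper63.CV

open Filter Topology MeasureTheory Set
open Pool.Agent.Helper36.CV

variable {Hm Hp : ℝ} {C : Set ℝ} {cd : CD Hm Hp C}

lemma e5_s (c x r : ℝ) (hX : c < x) (hr : 0 < r) :
    0 < (((x : ℂ) + (r : ℂ) * Complex.I - c) ^ (1 / 2 : ℂ)).re ∧
    (((x : ℂ) + (r : ℂ) * Complex.I - c) ^ (1 / 2 : ℂ)).im =
      Real.sqrt ((Real.sqrt ((x - c) ^ 2 + r ^ 2) - (x - c)) / 2) ∧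
    2 * (((x : ℂ) + (r : ℂ) * Complex.I - c) ^ (1 / 2 : ℂ)).re *
      (((x : ℂ) + (r : ℂ) * Complex.I - c) ^ (1 / 2 : ℂ)).im = r ∧
    (((x : ℂ) + (r : ℂ) * Complex.I - c) ^ (1 / 2 : ℂ)).re ^ 2 -
      (((x : ℂ) + (r : ℂ) * Complex.I - c) ^ (1 / 2 : ℂ)).im ^ 2 = x - c := by
  obtain ⟨z, hz⟩ : ∃ z : ℂ, z = (x : ℂ) + (r : ℂ) * Complex.I - c := ⟨_, rfl⟩
  rw [← hz]
  have hre : z.re = x - c := by rw [hz]; simp
  have him : z.im = r := by rw [hz]; simp
  have h12 : (1 / 2 : ℂ) = (2 : ℂ)⁻¹ := by norm_num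
  have hnorm : ‖z‖ = Real.sqrt ((x - c) ^ 2 + r ^ 2) := by
    rw [Complex.norm_def, Complex.normSq_apply, hre, him]
    congr 1
    ring
  have hsq : (z ^ (1 / 2 : ℂ)) ^ 2 = z := by
    have h1 := Complex.cpow_nat_inv_pow z (n := 2) (by norm_num)
    rw [h12]
    exact_mod_cast h1
  obtain ⟨s, hs⟩ : ∃ s : ℂ, s = z ^ (1 / 2 : ℂ) := ⟨_, rfl⟩
  have hsre : s.re = Real.sqrt ((‖z‖ + z.re) / 2) := by
    rw [hs, h12, Complex.cpow_inv_two_re]
  have hsim : s.im = Real.sqrt ((‖z‖ - z.re) / 2) := by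
    rw [hs, h12, Complex.cpow_inv_two_im_eq_sqrt (by rw [him]; exact hr.le)]
  rw [← hs] at hsq ⊢
  have h1 : s.re * s.re - s.im * s.im = z.re := by
    have h2 := congrArg Complex.re hsq
    rw [pow_two, Complex.mul_re] at h2
    exact h2
  have h2 : s.re * s.im + s.im * s.re = z.im := by
    have h2 := congrArg Complex.im hsq
    rw [pow_two, Complex.mul_im] at h2
    exact h2
  refine ⟨?_, ?_, ?_, ?_⟩
  · rw [hsre, hre]
    have h3 := norm_nonneg z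
    exact Real.sqrt_pos.mpr (by linarith)
  · rw [hsim, hre, hnorm]
  · rw [← him]
    linarith
  · rw [← hre]
    linarith

/-- the function near the edge -/
lemma e5_f (e : Edge cd) (E Q ε A : ℝ) (hE : 0 < E) (hA : 0 < A) (hQ : 1 ≤ Q) (hε : 0 < ε)
    (hg : ∀ z : ℂ, e.c ≤ z.re → z.re ≤ e.c + 3 * E → ε * E ≤ z.im → z.im ≤ E →
      ‖e.g z - A‖ ≤ 35 * Q * ε * A) (x r : ℝ) (hx1 : e.c < x)
    (hx2 : x ≤ e.c + 3 * E) (hr1 : ε * E ≤ r) (hr2 : r ≤ E) :
    ‖cd.f ((x : ℂ) + (r : ℂ) * Complex.I) - e.N -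
      A * ((x : ℂ) + (r : ℂ) * Complex.I - e.c) ^ (1 / 2 : ℂ)‖ ≤ 70 * Q * ε * A * Real.sqrt E := by
  have hr0 : 0 < r := lt_of_lt_of_le (mul_pos hε hE) hr1
  obtain ⟨h1, h2, h3, h4⟩ := e5_s e.c x r hx1 hr0
  obtain ⟨s, hs⟩ : ∃ s : ℂ, s = ((x : ℂ) + (r : ℂ) * Complex.I - e.c) ^ (1 / 2 : ℂ) := ⟨_, rfl⟩
  have hg1 := hg ((x : ℂ) + (r : ℂ) * Complex.I) (by simp; linarith) (by simp; linarith)
    (by simp; linarith) (by simp; linarith)
  have hgdef : e.g ((x : ℂ) + (r : ℂ) * Complex.I) =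
      (cd.f ((x : ℂ) + (r : ℂ) * Complex.I) - e.N) / s := by
    rw [hs]
    rfl
  rw [← hs] at h1 h2 h3 h4 ⊢
  have hs0 : s ≠ 0 := by
    intro h
    rw [h, Complex.zero_re] at h1
    exact lt_irrefl _ h1
  have hf : cd.f ((x : ℂ) + (r : ℂ) * Complex.I) - e.N - A * s =
      (e.g ((x : ℂ) + (r : ℂ) * Complex.I) - A) * s := by
    rw [hgdef]
    field_simp
  have hns : ‖s‖ ≤ 2 * Real.sqrt E := by
    have h5 : ‖s‖ ^ 2 ≤ 4 * E := by
      rw [← Complex.normSq_eq_norm_sq, Complex.normSq_apply]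
      have h6 : (s.re * s.re + s.im * s.im) ^ 2 = (x - e.c) ^ 2 + r ^ 2 := by
        rw [← h4]
        have h7 : r ^ 2 = (2 * s.re * s.im) ^ 2 := by rw [h3]
        rw [h7]
        ring
      have h8 : 0 ≤ s.re * s.re + s.im * s.im :=
        add_nonneg (mul_self_nonneg _) (mul_self_nonneg _)
      have h9 : (x - e.c) ^ 2 + r ^ 2 ≤ (4 * E) ^ 2 := by nlinarith
      rw [← h6] at h9
      exact le_of_sq_le_sq h9 (by linarith)
    have h6 : ‖s‖ ≤ Real.sqrt (4 * E) := Real.le_sqrt_of_sq_le h5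
    have h7 : Real.sqrt (4 * E) = 2 * Real.sqrt E := by
      rw [Real.sqrt_mul (by norm_num)]
      congr 1
      rw [show (4 : ℝ) = 2 ^ 2 by norm_num, Real.sqrt_sq (by norm_num)]
    rw [h7] at h6
    exact h6
  rw [hf, norm_mul]
  have hQ0 : 0 < Q := by linarith
  have hP : 0 ≤ 35 * Q * ε * A := by positivity
  calc ‖e.g ((x : ℂ) + (r : ℂ) * Complex.I) - A‖ * ‖s‖ ≤
      35 * Q * ε * A * (2 * Real.sqrt E) := mul_le_mul hg1 hns (norm_nonneg _) hP
    _ = 70 * Q * ε * A * Real.sqrt E := by ring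

/-- the three first parts of the law -/
lemma e5_three (e : Edge cd) (E Q ε A : ℝ) (hE : 0 < E) (hA : 0 < A) (hQ : 1 ≤ Q) (hε : 0 < ε)
    (hε1 : 400 * Q * ε ≤ 1)
    (hg : ∀ z : ℂ, e.c ≤ z.re → z.re ≤ e.c + 3 * E → ε * E ≤ z.im → z.im ≤ E →
      ‖e.g z - A‖ ≤ 35 * Q * ε * A)
    (hY : ∀ x r r' : ℝ, 0 < r → r ≤ r' → 0 < Yf cd x r ∧ Yf cd x r ≤ Yf cd x r' ∧
      Yf cd x r' / r' ≤ Yf cd x r / r)
    (hN : ∀ x r : ℝ, 0 < r → |(cd.f ((x : ℂ) + (r : ℂ) * Complex.I)).re - Nf cd x| ≤ Yf cd x r)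
    (x : ℝ) (hx1 : e.c + E / 10 ≤ x) (hx2 : x ≤ e.c + 3 * E) :
    (∀ r : ℝ, 0 < r → r ≤ E → r * A ≤ 10 * Real.sqrt E * Yf cd x r) ∧
    (∀ r : ℝ, ε * E ≤ r → r ≤ E →
      |Yf cd x r - A * Real.sqrt ((Real.sqrt ((x - e.c) ^ 2 + r ^ 2) - (x - e.c)) / 2)| ≤
        (400 * Q * ε) * A * Real.sqrt E) ∧
    |Nf cd x - e.N - A * Real.sqrt (x - e.c)| ≤ (400 * Q * ε) * A * Real.sqrt E := by
  have hsE : 0 < Real.sqrt E := Real.sqrt_pos.mpr hE
  have hAE : 0 < A * Real.sqrt E := mul_pos hA hsE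
  have hεE : 0 < ε * E := mul_pos hε hE
  have hε2 : ε ≤ 1 / 400 := by nlinarith
  have hX : E / 10 ≤ x - e.c := by linarith
  have hx3 : e.c < x := by linarith
  have him : ∀ r : ℝ, ε * E ≤ r → r ≤ E →
      |Yf cd x r - A * (((x : ℂ) + (r : ℂ) * Complex.I - e.c) ^ (1 / 2 : ℂ)).im| ≤
        70 * Q * ε * A * Real.sqrt E ∧
      |(cd.f ((x : ℂ) + (r : ℂ) * Complex.I)).re - e.N -
        A * (((x : ℂ) + (r : ℂ) * Complex.I - e.c) ^ (1 / 2 : ℂ)).re| ≤
        70 * Q * ε * A * Real.sqrt E := by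
    intro r hr1 hr2
    have h1 := e5_f e E Q ε A hE hA hQ hε hg x r hx3 hx2 hr1 hr2
    have h2 := (Complex.abs_im_le_norm _).trans h1
    have h3 := (Complex.abs_re_le_norm _).trans h1
    rw [Complex.sub_im, Complex.sub_im, Complex.ofReal_im, sub_zero,
      Complex.im_ofReal_mul] at h2
    rw [Complex.sub_re, Complex.sub_re, Complex.ofReal_re, Complex.re_ofReal_mul] at h3
    exact ⟨h2, h3⟩
  have hQA : 0 ≤ Q * ε * A * Real.sqrt E := by positivity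
  refine ⟨?_, ?_, ?_⟩
  · intro r hr1 hr2
    have h1 := (him E (by nlinarith) le_rfl).1
    obtain ⟨h2, h3, h4, h5⟩ := e5_s e.c x E hx3 hE
    obtain ⟨s, hs⟩ : ∃ s : ℂ, s = ((x : ℂ) + (E : ℂ) * Complex.I - e.c) ^ (1 / 2 : ℂ) := ⟨_, rfl⟩
    rw [← hs] at h1 h2 h3 h4 h5
    -- `s.im` is at least `.28 sqrt E`
    have h6 : 28 / 100 * Real.sqrt E ≤ s.im := by
      rw [h3]
      refine Real.le_sqrt_of_sq_le ?_
      rw [mul_pow, Real.sq_sqrt hE.le]
      have h7 : (x - e.c) + 16 / 100 * E ≤ Real.sqrt ((x - e.c) ^ 2 + E ^ 2) := by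
        refine Real.le_sqrt_of_sq_le ?_
        nlinarith
      linarith
    have h7 : A * (28 / 100 * Real.sqrt E) ≤ A * s.im := mul_le_mul_of_nonneg_left h6 hA.le
    have h8 := (abs_le.mp h1).1
    have h9 : 70 * Q * ε * A * Real.sqrt E ≤ 18 / 100 * (A * Real.sqrt E) := by
      have h10 : 70 * Q * ε ≤ 18 / 100 := by nlinarith
      calc 70 * Q * ε * A * Real.sqrt E = 70 * Q * ε * (A * Real.sqrt E) := by ring
        _ ≤ 18 / 100 * (A * Real.sqrt E) := mul_le_mul_of_nonneg_right h10 hAE.le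
    have h10 : A * Real.sqrt E / 10 ≤ Yf cd x E := by linarith
    have h11 := (hY x r E hr1 hr2).2.2
    rw [div_le_div_iff₀ hE hr1] at h11
    have h12 : A * Real.sqrt E / 10 * r ≤ Yf cd x r * E :=
      (mul_le_mul_of_nonneg_right h10 hr1.le).trans h11
    have h13 : Real.sqrt E * Real.sqrt E = E := Real.mul_self_sqrt hE.le
    have h14 : Real.sqrt E * (r * A) ≤ Real.sqrt E * (10 * Real.sqrt E * Yf cd x r) := by
      calc Real.sqrt E * (r * A) = 10 * (A * Real.sqrt E / 10 * r) := by ring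
        _ ≤ 10 * (Yf cd x r * E) := by linarith
        _ = 10 * (Yf cd x r * (Real.sqrt E * Real.sqrt E)) := by rw [h13]
        _ = Real.sqrt E * (10 * Real.sqrt E * Yf cd x r) := by ring
    exact le_of_mul_le_mul_left h14 hsE
  · intro r hr1 hr2
    have h1 := (him r hr1 hr2).1
    rw [(e5_s e.c x r hx3 (lt_of_lt_of_le hεE hr1)).2.1] at h1
    refine h1.trans ?_
    nlinarith
  · have hεE2 : ε * E ≤ E := by nlinarith
    obtain ⟨h1, h1'⟩ := him (ε * E) le_rfl hεE2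
    have hN1 := hN x (ε * E) hεE
    obtain ⟨h2, h3, h4, h5⟩ := e5_s e.c x (ε * E) hx3 hεE
    obtain ⟨s, hs⟩ : ∃ s : ℂ, s = ((x : ℂ) + ((ε * E : ℝ) : ℂ) * Complex.I - e.c) ^ (1 / 2 : ℂ) :=
      ⟨_, rfl⟩
    rw [← hs] at h1 h1' h2 h3 h4 h5
    obtain ⟨q, hq⟩ : ∃ q : ℝ, q = Real.sqrt (x - e.c) := ⟨_, rfl⟩
    have hq2 : q ^ 2 = x - e.c := by rw [hq]; exact Real.sq_sqrt (by linarith)
    have hq0 : 0 < q := by rw [hq]; exact Real.sqrt_pos.mpr (by linarith)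
    rw [← hq]
    have hsi0 : 0 ≤ s.im := by rw [h3]; exact Real.sqrt_nonneg _
    have hqs : q ≤ s.re := by
      refine le_of_sq_le_sq ?_ h2.le
      rw [hq2]
      nlinarith
    have hsq : s.re ≤ q + s.im := by
      refine le_of_sq_le_sq ?_ (by linarith)
      nlinarith
    have hqE : Real.sqrt E / 4 ≤ q := by
      rw [hq]
      refine Real.le_sqrt_of_sq_le ?_
      rw [div_pow, Real.sq_sqrt hE.le]
      linarith
    have hsi : s.im ≤ 2 * ε * Real.sqrt E := by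
      have h6 : 2 * (Real.sqrt E / 4) * s.im ≤ ε * E := by
        rw [← h4]
        have h7 : Real.sqrt E / 4 ≤ s.re := hqE.trans hqs
        exact mul_le_mul_of_nonneg_right (by linarith) hsi0
      have h7 : Real.sqrt E * Real.sqrt E = E := Real.mul_self_sqrt hE.le
      have h8 : Real.sqrt E * s.im ≤ Real.sqrt E * (2 * ε * Real.sqrt E) := by
        calc Real.sqrt E * s.im = 2 * (2 * (Real.sqrt E / 4) * s.im) := by ring
          _ ≤ 2 * (ε * E) := by linarith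
          _ = 2 * (ε * (Real.sqrt E * Real.sqrt E)) := by rw [h7]
          _ = Real.sqrt E * (2 * ε * Real.sqrt E) := by ring
      exact le_of_mul_le_mul_left h8 hsE
    have hAsi : A * s.im ≤ 2 * (Q * ε * A * Real.sqrt E) := by
      have h6 : A * s.im ≤ A * (2 * ε * Real.sqrt E) := mul_le_mul_of_nonneg_left hsi hA.le
      have h7 : ε * A * Real.sqrt E ≤ Q * (ε * A * Real.sqrt E) :=
        le_mul_of_one_le_left (by positivity) hQ
      calc A * s.im ≤ 2 * (ε * A * Real.sqrt E) := by linarith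
        _ ≤ 2 * (Q * (ε * A * Real.sqrt E)) := by linarith
        _ = 2 * (Q * ε * A * Real.sqrt E) := by ring
    have hAre : |A * s.re - A * q| ≤ A * s.im := by
      rw [← mul_sub, abs_mul, abs_of_pos hA, abs_of_nonneg (by linarith)]
      exact mul_le_mul_of_nonneg_left (by linarith) hA.le
    have hYub := (abs_le.mp h1).2
    have h7 := abs_le.mp h1'
    have h8 := abs_le.mp hN1
    have h9 := abs_le.mp hAre
    have h10 : (400 * Q * ε) * A * Real.sqrt E = 400 * (Q * ε * A * Real.sqrt E) := by ring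
    have h11 : 70 * Q * ε * A * Real.sqrt E = 70 * (Q * ε * A * Real.sqrt E) := by ring
    rw [h10]
    rw [h11] at hYub h7
    rw [abs_le]
    constructor
    · linarith [h7.1, h7.2, h8.1, h8.2, h9.1, h9.2]
    · linarith [h7.1, h7.2, h8.1, h8.2, h9.1, h9.2]

end Pool.Agent.Helper63.CV
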