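import Pool.Agent.Helper63.CV.E5g

/-! The two parts of the law for a gap. -/

set_option autoImplicit false

namespace Pool.Agent.Helper63.CV

open Filter Topology MeasureTheory Set
open Pool.Agent.Helper36.CV

variable {Hm Hp : ℝ} {C : Set ℝ} {cd : CD Hm Hp C}

/-- integrability on a compact interval to the right of `c` -/
lemma e5_int_v (c E m : ℝ) (hm : c + E / 5 ≤ m) (w f v : ℝ → ℝ)
    (hf : Integrable f) (h : ∀ t ∈ Icc (m - E / 10) (m + E / 10),
      v t = |f t| * Real.sqrt (t - c)) :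
    IntegrableOn v (Icc (m - E / 10) (m + E / 10)) := by
  have h1 : IntegrableOn (fun t => |f t|) (Icc (m - E / 10) (m + E / 10)) :=
    hf.abs.integrableOn
  have h2 := h1.mul_continuousOn (g' := fun t => Real.sqrt (t - c)) (by fun_prop) isCompact_Icc
  exact h2.congr_fun (fun t ht => (h t ht).symm) measurableSet_Icc

/-- first part of the law for a gap -/
lemma e5_law1 (e : Edge cd) (W : Gap cd) (E Q ε A Ψ : ℝ) (hE : 0 < E) (hA : 0 < A) (hQ : 1 ≤ Q)
    (hε : 0 < ε) (hε1 : ε ≤ 1 / 100) (hw : Wt e.wt) (hv0 : ∀ x : ℝ, 0 ≤ vf cd x)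
    (hM : ∫ t in Icc (e.c - 4 * E) (e.c + 4 * E), e.wt t ≤ Q * ε ^ 2 * E * A)
    (hT : ∫ t in FF e.c E, e.wt t * (1 / (t - e.c) ^ 2) ≤ Q * ε ^ 2 * A / E)
    (hΨ : Ψ = (1 / Real.pi) * ∫ t in FF e.c E, e.wt t * (1 / (t - e.c)))
    (hΨA : |Ψ - A| ≤ 17 * Q * ε ^ 2 * A)
    (ha : e.c + E / 5 ≤ W.a) (hb : W.b ≤ e.c + 2 * E) (hs : W.s ≤ 3 * ε * E)
    (hint : Integrable (fun t => e.wt t / W.q t))
    (hid : (W.N - e.N) * W.av (fun t => 1 / Real.sqrt (t - e.c)) =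
      (1 / Real.pi) * ∫ t : ℝ, e.wt t / W.q t)
    (hD0 : 0 ≤ W.N - e.N) (hD : W.N - e.N ≤ 2 * (A * Real.sqrt E)) :
    |W.N - e.N - A * Real.sqrt (W.c - e.c)| ≤ 6 * n1 W (E / 10) +
      400 * Q * ε ^ 2 * A * Real.sqrt E := by
  have hpi0 : 0 < Real.pi := Real.pi_pos
  have hpi := Real.pi_gt_three
  have hsE : 0 < Real.sqrt E := Real.sqrt_pos.mpr hE
  have hab := W.lt
  have hcdef : W.c = (W.a + W.b) / 2 := rfl
  have hsdef : W.s = W.b - W.a := rfl
  rw [hsdef] at hs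
  have hs' : W.b - W.a ≤ 3 / 100 * E := by nlinarith
  have hcm1 : e.c + E / 5 ≤ W.c := by rw [hcdef]; linarith
  have hcm2 : W.c ≤ e.c + 2 * E := by rw [hcdef]; linarith
  have hX : 0 < W.c - e.c := by linarith
  -- the integral
  have hsub : Icc (W.c - E / 10) (W.c + E / 10) ⊆ Icc (e.c - 4 * E) (e.c + 4 * E) := by
    intro t ht
    exact ⟨by linarith [ht.1], by linarith [ht.2]⟩
  have hv : IntegrableOn (fun t => vf cd t / |W.q t|) (Icc (W.c - E / 10) (W.c + E / 10)) := by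
    refine e5_int_v e.c E W.c hcm1 e.wt (fun t => e.wt t / W.q t) _ hint (fun t ht => ?_)
    have h1 : e.c < t := by linarith [ht.1]
    have h2 : 0 < Real.sqrt (t - e.c) := Real.sqrt_pos.mpr (by linarith)
    rw [abs_div, abs_of_nonneg (hw.nn t), e5_wt_right e t h1]
    field_simp
  have h1 : |(∫ t in FF e.c E, e.wt t / W.q t) - ∫ t in FF e.c E, e.wt t * (1 / (t - e.c))| ≤
      12 * (Q * ε ^ 2 * A) := by
    rw [← integral_sub hint.integrableOn (e5_int_far1 hw e.c E hE)]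
    have h2 : ‖∫ t in FF e.c E, (e.wt t / W.q t - e.wt t * (1 / (t - e.c)))‖ ≤
        ∫ t in FF e.c E, 12 * E * (e.wt t * (1 / (t - e.c) ^ 2)) := by
      refine norm_integral_le_of_norm_le ((e5_int_far2 hw e.c E hE).const_mul _) ?_
      rw [ae_restrict_iff' (FF_meas e.c E)]
      refine Eventually.of_forall (fun t ht => ?_)
      have h3 := (e5_far_q e.c E W.a W.b t hE hab ha hb hs' ht).1
      have h4 : e.wt t / W.q t - e.wt t * (1 / (t - e.c)) =
          e.wt t * (1 / qr W.a W.b t - 1 / (t - e.c)) := by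
        have h5 : W.q t = qr W.a W.b t := rfl
        rw [h5]
        ring
      rw [h4, Real.norm_eq_abs, abs_mul, abs_of_nonneg (hw.nn t)]
      calc e.wt t * |1 / qr W.a W.b t - 1 / (t - e.c)| ≤
          e.wt t * (12 * E * (1 / (t - e.c) ^ 2)) := mul_le_mul_of_nonneg_left h3 (hw.nn t)
        _ = 12 * E * (e.wt t * (1 / (t - e.c) ^ 2)) := by ring
    rw [integral_const_mul, Real.norm_eq_abs] at h2
    refine h2.trans ?_
    calc 12 * E * ∫ t in FF e.c E, e.wt t * (1 / (t - e.c) ^ 2) ≤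
        12 * E * (Q * ε ^ 2 * A / E) := mul_le_mul_of_nonneg_left hT (by linarith)
      _ = 12 * (Q * ε ^ 2 * A) := by field_simp
  have h2 : ∀ t ∈ Icc (e.c - 4 * E) (e.c + 4 * E), t ∉ Icc (W.c - E / 10) (W.c + E / 10) →
      |e.wt t / W.q t| ≤ 12 / E * e.wt t := by
    intro t _ ht
    have h3 := (e5_mid_q E W.a W.b t hE hab hs' ht).1
    have h4 : e.wt t / W.q t = e.wt t * (1 / qr W.a W.b t) := by
      have h5 : W.q t = qr W.a W.b t := rfl
      rw [h5]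
      ring
    rw [h4, abs_mul, abs_of_nonneg (hw.nn t), mul_comm]
    exact mul_le_mul_of_nonneg_right h3 (hw.nn t)
  have h3 : ∀ t ∈ Icc (W.c - E / 10) (W.c + E / 10),
      |e.wt t / W.q t| ≤ 4 / Real.sqrt E * (vf cd t / |W.q t|) := by
    intro t ht
    have h4 : e.c < t := by linarith [ht.1]
    have h5 : Real.sqrt E / 4 ≤ Real.sqrt (t - e.c) := by
      refine Real.le_sqrt_of_sq_le ?_
      rw [div_pow, Real.sq_sqrt hE.le]
      linarith [ht.1]
    rw [abs_div, abs_of_nonneg (hw.nn t), e5_wt_right e t h4]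
    have h6 : vf cd t / Real.sqrt (t - e.c) ≤ 4 / Real.sqrt E * vf cd t := by
      rw [div_le_iff₀ (by linarith [hsE])]
      have h7 : 1 ≤ 4 / Real.sqrt E * Real.sqrt (t - e.c) := by
        rw [div_mul_eq_mul_div, le_div_iff₀ hsE]
        linarith
      calc vf cd t = vf cd t * 1 := by ring
        _ ≤ vf cd t * (4 / Real.sqrt E * Real.sqrt (t - e.c)) :=
            mul_le_mul_of_nonneg_left h7 (hv0 t)
        _ = 4 / Real.sqrt E * vf cd t * Real.sqrt (t - e.c) := by ring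
    calc vf cd t / Real.sqrt (t - e.c) / |W.q t| ≤ 4 / Real.sqrt E * vf cd t / |W.q t| :=
          div_le_div_of_nonneg_right h6 (abs_nonneg _)
      _ = 4 / Real.sqrt E * (vf cd t / |W.q t|) := by ring
  have h4 := e5_K hw e.c E hE hint W.c (E / 10) hsub (fun t => vf cd t / |W.q t|) hv
    (∫ t in FF e.c E, e.wt t * (1 / (t - e.c))) (12 * (Q * ε ^ 2 * A)) (12 / E)
    (4 / Real.sqrt E) (by positivity) h1 h2 h3
  have h5 : 12 / E * (∫ t in Icc (e.c - 4 * E) (e.c + 4 * E), e.wt t) ≤ 12 * (Q * ε ^ 2 * A) := by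
    calc 12 / E * (∫ t in Icc (e.c - 4 * E) (e.c + 4 * E), e.wt t) ≤
        12 / E * (Q * ε ^ 2 * E * A) := mul_le_mul_of_nonneg_left hM (by positivity)
      _ = 12 * (Q * ε ^ 2 * A) := by field_simp
  have hn : (∫ t in Icc (W.c - E / 10) (W.c + E / 10), vf cd t / |W.q t|) = n1 W (E / 10) := rfl
  rw [hn] at h4
  have hn0 : 0 ≤ n1 W (E / 10) := by
    rw [← hn]
    exact integral_nonneg (fun t => div_nonneg (hv0 t) (abs_nonneg _))
  obtain ⟨ν, hν⟩ : ∃ ν : ℝ, ν = n1 W (E / 10) := ⟨_, rfl⟩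
  rw [← hν] at h4 hn0 ⊢
  have h6 : |(1 / Real.pi) * (∫ t, e.wt t / W.q t) - Ψ| ≤
      24 * (Q * ε ^ 2 * A) + 4 / Real.sqrt E * ν := by
    rw [hΨ, ← mul_sub, abs_mul, abs_of_pos (by positivity)]
    have hpi1 : 1 / Real.pi ≤ 1 := by
      rw [div_le_one hpi0]
      linarith
    calc 1 / Real.pi * |(∫ t, e.wt t / W.q t) - ∫ t in FF e.c E, e.wt t * (1 / (t - e.c))| ≤
        1 * |(∫ t, e.wt t / W.q t) - ∫ t in FF e.c E, e.wt t * (1 / (t - e.c))| :=
          mul_le_mul_of_nonneg_right hpi1 (abs_nonneg _)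
      _ ≤ 24 * (Q * ε ^ 2 * A) + 4 / Real.sqrt E * ν := by linarith
  rw [← hid] at h6
  -- the average
  have hav := e5_av e.c W.a W.b (15 / 2 * ε) hab (by linarith) (by rw [← hcdef]; exact hX) (by
    rw [← hcdef]
    have h7 : 15 / 2 * ε * (E / 5) ≤ 15 / 2 * ε * (W.c - e.c) :=
      mul_le_mul_of_nonneg_left (by linarith) (by linarith)
    linarith)
  rw [← hcdef] at hav
  have havdef : (1 / Real.pi) * (∫ t in W.a..W.b, (1 / Real.sqrt (t - e.c)) /
      Real.sqrt ((t - W.a) * (W.b - t))) = W.av (fun t => 1 / Real.sqrt (t - e.c)) := rfl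
  rw [havdef] at hav
  obtain ⟨v, hvd⟩ : ∃ v : ℝ, v = W.av (fun t => 1 / Real.sqrt (t - e.c)) := ⟨_, rfl⟩
  rw [← hvd] at hav h6
  obtain ⟨p, hp⟩ : ∃ p : ℝ, p = Real.sqrt (W.c - e.c) := ⟨_, rfl⟩
  have hp0 : 0 < p := by rw [hp]; exact Real.sqrt_pos.mpr hX
  rw [← hp] at hav ⊢
  have hpE : p ≤ 3 / 2 * Real.sqrt E := by
    rw [hp, Real.sqrt_le_left (by positivity), mul_pow, Real.sq_sqrt hE.le]
    linarith
  obtain ⟨D, hDd⟩ : ∃ D : ℝ, D = W.N - e.N := ⟨_, rfl⟩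
  rw [← hDd] at h6 hD0 hD ⊢
  have h7 : |D - A * p| ≤ p * (|D * v - Ψ| + |Ψ - A|) + p * (D * |v - 1 / p|) := by
    have h8 : D - A * p = p * ((D * v - Ψ) + (Ψ - A)) - p * (D * (v - 1 / p)) := by
      field_simp
      ring
    rw [h8]
    refine (abs_sub _ _).trans ?_
    rw [abs_mul, abs_mul, abs_mul, abs_of_pos hp0, abs_of_nonneg hD0]
    have h9 := abs_add_le (D * v - Ψ) (Ψ - A)
    have h10 := mul_le_mul_of_nonneg_left h9 hp0.le
    linarith
  have h8 : p * (D * |v - 1 / p|) ≤ 225 / 4 * ε ^ 2 * (2 * (A * Real.sqrt E)) := by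
    have h9 : D * |v - 1 / p| ≤ D * ((15 / 2 * ε) ^ 2 / p) := mul_le_mul_of_nonneg_left hav hD0
    calc p * (D * |v - 1 / p|) ≤ p * (D * ((15 / 2 * ε) ^ 2 / p)) :=
          mul_le_mul_of_nonneg_left h9 hp0.le
      _ = 225 / 4 * ε ^ 2 * D := by
          field_simp
          ring
      _ ≤ 225 / 4 * ε ^ 2 * (2 * (A * Real.sqrt E)) :=
          mul_le_mul_of_nonneg_left hD (by positivity)
  have h9 : p * (|D * v - Ψ| + |Ψ - A|) ≤
      3 / 2 * Real.sqrt E * (41 * (Q * ε ^ 2 * A) + 4 / Real.sqrt E * ν) := by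
    refine mul_le_mul hpE (by linarith) (by positivity) (by positivity)
  have h10 : 3 / 2 * Real.sqrt E * (41 * (Q * ε ^ 2 * A) + 4 / Real.sqrt E * ν) =
      123 / 2 * (Q * ε ^ 2 * A * Real.sqrt E) + 6 * ν := by
    field_simp
    ring
  have h11 : ε ^ 2 * A * Real.sqrt E ≤ Q * (ε ^ 2 * A * Real.sqrt E) :=
    le_mul_of_one_le_left (by positivity) hQ
  have hQ0 : 0 < Q := by linarith
  have h12 : 0 ≤ ε ^ 2 * A * Real.sqrt E := by positivity
  rw [h10] at h9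
  have h13 : 225 / 4 * ε ^ 2 * (2 * (A * Real.sqrt E)) = 225 / 2 * (ε ^ 2 * A * Real.sqrt E) := by
    ring
  have h14 : 400 * Q * ε ^ 2 * A * Real.sqrt E = 400 * (Q * (ε ^ 2 * A * Real.sqrt E)) := by ring
  have h15 : Q * ε ^ 2 * A * Real.sqrt E = Q * (ε ^ 2 * A * Real.sqrt E) := by ring
  rw [h14]
  rw [h15] at h9
  rw [h13] at h8
  linarith

/-- second part of the law for a gap -/
lemma e5_law2 (e : Edge cd) (W : Gap cd) (E Q ε A : ℝ) (hE : 0 < E) (hA : 0 < A) (hQ : 1 ≤ Q)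
    (hε : 0 < ε) (hε1 : ε ≤ 1 / 100) (hw : Wt e.wt) (hv0 : ∀ x : ℝ, 0 ≤ vf cd x)
    (hM : ∫ t in Icc (e.c - 4 * E) (e.c + 4 * E), e.wt t ≤ Q * ε ^ 2 * E * A)
    (hT : ∫ t in FF e.c E, e.wt t * (1 / (t - e.c) ^ 2) ≤ Q * ε ^ 2 * A / E)
    (ha : e.c + E / 5 ≤ W.a) (hb : W.b ≤ e.c + 2 * E) (hs : W.s ≤ 3 * ε * E)
    (hint : Integrable (fun t => e.wt t / (W.q t * (t - W.c))))
    (hid : W.kk = Real.sqrt (W.c - e.c) * ((W.N - e.N) * ((1 / Real.pi) *
      ∫ t in Iio e.c, 1 / (Real.sqrt (e.c - t) * |W.q t| * |t - W.c|)) +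
      (1 / Real.pi) * ∫ t : ℝ, e.wt t / (W.q t * (t - W.c))))
    (hD0 : 0 ≤ W.N - e.N) (hD : W.N - e.N ≤ 2 * (A * Real.sqrt E)) :
    W.kk ≤ (W.N - e.N) / (2 * (W.c - e.c)) + 6 * n2 W (E / 10) +
      400 * Q * ε ^ 2 * A / Real.sqrt E := by
  have hpi0 : 0 < Real.pi := Real.pi_pos
  have hpi := Real.pi_gt_three
  have hsE : 0 < Real.sqrt E := Real.sqrt_pos.mpr hE
  have hab := W.lt
  have hcdef : W.c = (W.a + W.b) / 2 := rfl
  have hsdef : W.s = W.b - W.a := rfl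
  rw [hsdef] at hs
  have hs' : W.b - W.a ≤ 3 / 100 * E := by nlinarith
  have hcm1 : e.c + E / 5 ≤ W.c := by rw [hcdef]; linarith
  have hcm2 : W.c ≤ e.c + 2 * E := by rw [hcdef]; linarith
  have hX : 0 < W.c - e.c := by linarith
  have hsub : Icc (W.c - E / 10) (W.c + E / 10) ⊆ Icc (e.c - 4 * E) (e.c + 4 * E) := by
    intro t ht
    exact ⟨by linarith [ht.1], by linarith [ht.2]⟩
  have hv : IntegrableOn (fun t => vf cd t / (|W.q t| * |t - W.c|))
      (Icc (W.c - E / 10) (W.c + E / 10)) := by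
    refine e5_int_v e.c E W.c hcm1 e.wt (fun t => e.wt t / (W.q t * (t - W.c))) _ hint
      (fun t ht => ?_)
    have h1 : e.c < t := by linarith [ht.1]
    have h2 : 0 < Real.sqrt (t - e.c) := Real.sqrt_pos.mpr (by linarith)
    rw [abs_div, abs_mul, abs_of_nonneg (hw.nn t), e5_wt_right e t h1]
    field_simp
  have h1 : |(∫ t in FF e.c E, e.wt t / (W.q t * (t - W.c))) - 0| ≤
      8 * (Q * ε ^ 2 * A / E) := by
    rw [sub_zero]
    have h2 : ‖∫ t in FF e.c E, e.wt t / (W.q t * (t - W.c))‖ ≤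
        ∫ t in FF e.c E, 8 * (e.wt t * (1 / (t - e.c) ^ 2)) := by
      refine norm_integral_le_of_norm_le ((e5_int_far2 hw e.c E hE).const_mul _) ?_
      rw [ae_restrict_iff' (FF_meas e.c E)]
      refine Eventually.of_forall (fun t ht => ?_)
      have h3 := (e5_far_q e.c E W.a W.b t hE hab ha hb hs' ht).2
      rw [← hcdef] at h3
      have h4 : e.wt t / (W.q t * (t - W.c)) = e.wt t * (1 / (qr W.a W.b t * (t - W.c))) := by
        have h5 : W.q t = qr W.a W.b t := rfl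
        rw [h5]
        ring
      rw [h4, Real.norm_eq_abs, abs_mul, abs_of_nonneg (hw.nn t)]
      calc e.wt t * |1 / (qr W.a W.b t * (t - W.c))| ≤
          e.wt t * (8 * (1 / (t - e.c) ^ 2)) := mul_le_mul_of_nonneg_left h3 (hw.nn t)
        _ = 8 * (e.wt t * (1 / (t - e.c) ^ 2)) := by ring
    rw [integral_const_mul, Real.norm_eq_abs] at h2
    exact h2.trans (mul_le_mul_of_nonneg_left hT (by norm_num))
  have h2 : ∀ t ∈ Icc (e.c - 4 * E) (e.c + 4 * E), t ∉ Icc (W.c - E / 10) (W.c + E / 10) →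
      |e.wt t / (W.q t * (t - W.c))| ≤ 120 / E ^ 2 * e.wt t := by
    intro t _ ht
    have h3 := (e5_mid_q E W.a W.b t hE hab hs' ht).2
    rw [← hcdef] at h3
    have h4 : e.wt t / (W.q t * (t - W.c)) = e.wt t * (1 / (qr W.a W.b t * (t - W.c))) := by
      have h5 : W.q t = qr W.a W.b t := rfl
      rw [h5]
      ring
    rw [h4, abs_mul, abs_of_nonneg (hw.nn t), mul_comm]
    exact mul_le_mul_of_nonneg_right h3 (hw.nn t)
  have h3 : ∀ t ∈ Icc (W.c - E / 10) (W.c + E / 10),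
      |e.wt t / (W.q t * (t - W.c))| ≤ 4 / Real.sqrt E * (vf cd t / (|W.q t| * |t - W.c|)) := by
    intro t ht
    have h4 : e.c < t := by linarith [ht.1]
    have h5 : Real.sqrt E / 4 ≤ Real.sqrt (t - e.c) := by
      refine Real.le_sqrt_of_sq_le ?_
      rw [div_pow, Real.sq_sqrt hE.le]
      linarith [ht.1]
    rw [abs_div, abs_mul, abs_of_nonneg (hw.nn t), e5_wt_right e t h4]
    have h6 : vf cd t / Real.sqrt (t - e.c) ≤ 4 / Real.sqrt E * vf cd t := by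
      rw [div_le_iff₀ (by linarith [hsE])]
      have h7 : 1 ≤ 4 / Real.sqrt E * Real.sqrt (t - e.c) := by
        rw [div_mul_eq_mul_div, le_div_iff₀ hsE]
        linarith
      calc vf cd t = vf cd t * 1 := by ring
        _ ≤ vf cd t * (4 / Real.sqrt E * Real.sqrt (t - e.c)) :=
            mul_le_mul_of_nonneg_left h7 (hv0 t)
        _ = 4 / Real.sqrt E * vf cd t * Real.sqrt (t - e.c) := by ring
    calc vf cd t / Real.sqrt (t - e.c) / (|W.q t| * |t - W.c|) ≤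
          4 / Real.sqrt E * vf cd t / (|W.q t| * |t - W.c|) :=
          div_le_div_of_nonneg_right h6 (by positivity)
      _ = 4 / Real.sqrt E * (vf cd t / (|W.q t| * |t - W.c|)) := by ring
  have h4 := e5_K hw e.c E hE hint W.c (E / 10) hsub
    (fun t => vf cd t / (|W.q t| * |t - W.c|)) hv 0 (8 * (Q * ε ^ 2 * A / E)) (120 / E ^ 2)
    (4 / Real.sqrt E) (by positivity) h1 h2 h3
  rw [sub_zero] at h4
  have h5 : 120 / E ^ 2 * (∫ t in Icc (e.c - 4 * E) (e.c + 4 * E), e.wt t) ≤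
      120 * (Q * ε ^ 2 * A / E) := by
    calc 120 / E ^ 2 * (∫ t in Icc (e.c - 4 * E) (e.c + 4 * E), e.wt t) ≤
        120 / E ^ 2 * (Q * ε ^ 2 * E * A) := mul_le_mul_of_nonneg_left hM (by positivity)
      _ = 120 * (Q * ε ^ 2 * A / E) := by field_simp
  have hn : (∫ t in Icc (W.c - E / 10) (W.c + E / 10), vf cd t / (|W.q t| * |t - W.c|)) =
      n2 W (E / 10) := rfl
  rw [hn] at h4
  have hn0 : 0 ≤ n2 W (E / 10) := by
    rw [← hn]
    exact integral_nonneg (fun t => div_nonneg (hv0 t) (by positivity))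
  obtain ⟨ν, hν⟩ : ∃ ν : ℝ, ν = n2 W (E / 10) := ⟨_, rfl⟩
  rw [← hν] at h4 hn0 ⊢
  -- the left tail
  obtain ⟨X, hXd⟩ : ∃ X : ℝ, X = W.c - e.c := ⟨_, rfl⟩
  obtain ⟨p, hp⟩ : ∃ p : ℝ, p = Real.sqrt X := ⟨_, rfl⟩
  have hX0 : 0 < X := by rw [hXd]; exact hX
  have hp0 : 0 < p := by rw [hp]; exact Real.sqrt_pos.mpr hX0
  have hp2 : p * p = X := by rw [hp]; exact Real.mul_self_sqrt hX0.le
  have hpE : p ≤ 3 / 2 * Real.sqrt E := by
    rw [hp, Real.sqrt_le_left (by positivity), mul_pow, Real.sq_sqrt hE.le]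
    linarith
  have hk0 : 0 ≤ 15 / 2 * ε := by linarith
  obtain ⟨htint, htval⟩ := e5_tail e.c W.c (by linarith)
  have hI : (∫ t in Iio e.c, 1 / (Real.sqrt (e.c - t) * |W.q t| * |t - W.c|)) ≤
      (1 + (15 / 2 * ε) ^ 2) * (Real.pi / (2 * (X * p))) := by
    have h6 : (∫ t in Iio e.c, 1 / (Real.sqrt (e.c - t) * |W.q t| * |t - W.c|)) ≤
        ∫ t in Iio e.c, (1 + (15 / 2 * ε) ^ 2) *
          (1 / (Real.sqrt (e.c - t) * (W.c - t) ^ 2)) := by
      refine integral_mono_of_nonneg ?_ (htint.const_mul _) ?_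
      · exact Eventually.of_forall (fun t => by positivity)
      · refine (ae_restrict_iff' measurableSet_Iio).mpr (Eventually.of_forall (fun t ht => ?_))
        have h7 := e5_left_q e.c W.a W.b t (15 / 2 * ε) hab (by rw [← hcdef]; linarith)
          (by nlinarith) hk0 (by
            rw [← hcdef]
            have h7 : 15 / 2 * ε * (E / 5) ≤ 15 / 2 * ε * (W.c - e.c) :=
              mul_le_mul_of_nonneg_left (by linarith) (by linarith)
            linarith) ht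
        rw [← hcdef] at h7
        exact h7
    rw [integral_const_mul, htval, ← hXd, ← hp] at h6
    exact h6
  have hpi1 : 1 / Real.pi ≤ 1 / 3 := one_div_le_one_div_of_le (by norm_num) hpi.le
  obtain ⟨D, hDd⟩ : ∃ D : ℝ, D = W.N - e.N := ⟨_, rfl⟩
  rw [hid, ← hDd, ← hXd, ← hp]
  rw [← hDd] at hD0 hD
  have h6 : p * (D * ((1 / Real.pi) *
      ∫ t in Iio e.c, 1 / (Real.sqrt (e.c - t) * |W.q t| * |t - W.c|))) ≤
      D / (2 * X) + 225 / 4 * ε ^ 2 * (D / (2 * X)) := by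
    have h7 : (1 / Real.pi) * (∫ t in Iio e.c, 1 / (Real.sqrt (e.c - t) * |W.q t| * |t - W.c|)) ≤
        (1 / Real.pi) * ((1 + (15 / 2 * ε) ^ 2) * (Real.pi / (2 * (X * p)))) :=
      mul_le_mul_of_nonneg_left hI (by positivity)
    calc p * (D * ((1 / Real.pi) *
      ∫ t in Iio e.c, 1 / (Real.sqrt (e.c - t) * |W.q t| * |t - W.c|))) ≤
      p * (D * ((1 / Real.pi) * ((1 + (15 / 2 * ε) ^ 2) * (Real.pi / (2 * (X * p)))))) :=
        mul_le_mul_of_nonneg_left (mul_le_mul_of_nonneg_left h7 hD0) hp0.le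
      _ = D / (2 * X) + 225 / 4 * ε ^ 2 * (D / (2 * X)) := by
          field_simp
          ring
  have h7 : D / (2 * X) ≤ 5 * (A / Real.sqrt E) := by
    rw [div_le_iff₀ (by positivity)]
    have h8 : E / 5 ≤ X := by linarith
    have h9 : Real.sqrt E * Real.sqrt E = E := Real.mul_self_sqrt hE.le
    calc D ≤ 2 * (A * Real.sqrt E) := hD
      _ = 5 * (A / Real.sqrt E) * (2 * ((Real.sqrt E * Real.sqrt E) / 5)) := by
          field_simp
      _ = 5 * (A / Real.sqrt E) * (2 * (E / 5)) := by rw [h9]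
      _ ≤ 5 * (A / Real.sqrt E) * (2 * X) :=
          mul_le_mul_of_nonneg_left (by linarith) (by positivity)
  have h8 : p * ((1 / Real.pi) * ∫ t : ℝ, e.wt t / (W.q t * (t - W.c))) ≤
      3 / 2 * Real.sqrt E * (1 / 3 * (128 * (Q * ε ^ 2 * A / E) + 4 / Real.sqrt E * ν)) := by
    have h9 : (1 / Real.pi) * (∫ t : ℝ, e.wt t / (W.q t * (t - W.c))) ≤
        1 / 3 * (128 * (Q * ε ^ 2 * A / E) + 4 / Real.sqrt E * ν) := by
      calc (1 / Real.pi) * (∫ t : ℝ, e.wt t / (W.q t * (t - W.c))) ≤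
          (1 / Real.pi) * |∫ t : ℝ, e.wt t / (W.q t * (t - W.c))| :=
            mul_le_mul_of_nonneg_left (le_abs_self _) (by positivity)
        _ ≤ 1 / 3 * |∫ t : ℝ, e.wt t / (W.q t * (t - W.c))| :=
            mul_le_mul_of_nonneg_right hpi1 (abs_nonneg _)
        _ ≤ 1 / 3 * (128 * (Q * ε ^ 2 * A / E) + 4 / Real.sqrt E * ν) := by linarith
    have hQ0 : 0 < Q := by linarith
    have h10 : 0 ≤ 1 / 3 * (128 * (Q * ε ^ 2 * A / E) + 4 / Real.sqrt E * ν) := by positivity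
    calc p * ((1 / Real.pi) * ∫ t : ℝ, e.wt t / (W.q t * (t - W.c))) ≤
        p * (1 / 3 * (128 * (Q * ε ^ 2 * A / E) + 4 / Real.sqrt E * ν)) :=
          mul_le_mul_of_nonneg_left h9 hp0.le
      _ ≤ 3 / 2 * Real.sqrt E * (1 / 3 * (128 * (Q * ε ^ 2 * A / E) + 4 / Real.sqrt E * ν)) :=
          mul_le_mul_of_nonneg_right hpE h10
  have h9 : 3 / 2 * Real.sqrt E * (1 / 3 * (128 * (Q * ε ^ 2 * A / E) + 4 / Real.sqrt E * ν)) =
      64 * (Q * ε ^ 2 * A / Real.sqrt E) + 2 * ν := by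
    have h10 : Real.sqrt E * Real.sqrt E = E := Real.mul_self_sqrt hE.le
    have h11 : Q * ε ^ 2 * A / E = Q * ε ^ 2 * A / Real.sqrt E / Real.sqrt E := by
      rw [div_div, h10]
    rw [h11]
    field_simp
    ring
  rw [h9] at h8
  have h10 : ε ^ 2 * (D / (2 * X)) ≤ ε ^ 2 * (5 * (A / Real.sqrt E)) :=
    mul_le_mul_of_nonneg_left h7 (by positivity)
  have h11 : ε ^ 2 * (A / Real.sqrt E) ≤ Q * (ε ^ 2 * (A / Real.sqrt E)) :=
    le_mul_of_one_le_left (by positivity) hQ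
  have h12 : 0 ≤ ε ^ 2 * (A / Real.sqrt E) := by positivity
  have h13 : 400 * Q * ε ^ 2 * A / Real.sqrt E = 400 * (Q * (ε ^ 2 * (A / Real.sqrt E))) := by
    ring
  have h14 : Q * ε ^ 2 * A / Real.sqrt E = Q * (ε ^ 2 * (A / Real.sqrt E)) := by ring
  rw [h13, mul_add]
  rw [h14] at h8
  linarith

end Pool.Agent.Helper63.CV
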