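import Pool.Agent.Helper36.CV.StmtsO

/-!
# O6: near periodicity of the Fibonacci word
-/

set_option autoImplicit false

namespace Pool.Agent.Helper36.CV

noncomputable section

def o6_g : ℝ := (Real.sqrt 5 - 1) / 2

theorem o6_sqrt_sq : Real.sqrt 5 ^ 2 = 5 := Real.sq_sqrt (by norm_num)

theorem o6_g_sq : o6_g ^ 2 = 1 - o6_g := by
  unfold o6_g
  have h := o6_sqrt_sq
  linear_combination h / 4

theorem o6_g_pos : 0 < o6_g := by
  unfold o6_g
  have h := o6_sqrt_sq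
  have h0 : 0 ≤ Real.sqrt 5 := Real.sqrt_nonneg 5
  nlinarith

theorem o6_g_lt : o6_g < 1 := by
  have h := o6_g_sq
  have h0 := o6_g_pos
  nlinarith

theorem o6_vv (k : ℤ) :
    vv k = (⌊((k + 1 : ℤ) : ℝ) * o6_g⌋ : ℝ) - (⌊(k : ℝ) * o6_g⌋ : ℝ) := by
  have hg0 := o6_g_pos
  have hg1 := o6_g_lt
  have e1 : (Real.sqrt 5 - 1) / 2 = o6_g := rfl
  unfold vv
  rw [e1]
  have h1 := Int.floor_add_fract ((k : ℝ) * o6_g)
  have h2 := Int.fract_lt_one ((k : ℝ) * o6_g)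
  have h3 := Int.fract_nonneg ((k : ℝ) * o6_g)
  by_cases h : 1 - o6_g ≤ Int.fract ((k : ℝ) * o6_g)
  · rw [Set.indicator_of_mem (Set.mem_Ico.2 ⟨h, h2⟩)]
    have h4 : ⌊((k + 1 : ℤ) : ℝ) * o6_g⌋ = ⌊(k : ℝ) * o6_g⌋ + 1 := by
      rw [Int.floor_eq_iff]
      push_cast
      constructor
      · nlinarith
      · nlinarith
    rw [h4]
    push_cast
    ring
  · rw [Set.indicator_of_notMem (fun hc => h (Set.mem_Ico.1 hc).1)]
    have h4 : ⌊((k + 1 : ℤ) : ℝ) * o6_g⌋ = ⌊(k : ℝ) * o6_g⌋ := by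
      rw [Int.floor_eq_iff]
      push_cast
      push Not at h
      constructor
      · nlinarith
      · nlinarith
    rw [h4]
    ring

theorem o6_fib (m : ℕ) :
    (Nat.fib (m + 1) : ℝ) * o6_g = Nat.fib m - (-o6_g) ^ (m + 1) ∧
    (Nat.fib (m + 2) : ℝ) * o6_g = Nat.fib (m + 1) - (-o6_g) ^ (m + 2) := by
  induction m with
  | zero =>
    constructor
    · simp
    · have h := o6_g_sq
      simp
      linarith
  | succ m ih =>
    obtain ⟨h1, h2⟩ := ih
    refine ⟨h2, ?_⟩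
    have h := o6_g_sq
    have e : (Nat.fib (m + 1 + 2) : ℝ) = Nat.fib (m + 1) + Nat.fib (m + 2) := by
      exact_mod_cast Nat.fib_add_two (n := m + 1)
    have e2 : (Nat.fib (m + 2) : ℝ) = Nat.fib m + Nat.fib (m + 1) := by
      exact_mod_cast Nat.fib_add_two (n := m)
    have e3 : (-o6_g) ^ (m + 1 + 2) = (-o6_g) ^ (m + 1) * (1 - o6_g) := by
      rw [← h]
      ring
    have e4 : (-o6_g) ^ (m + 2) = (-o6_g) ^ (m + 1) * (-o6_g) := by ring
    rw [e, add_mul, h1, h2, e3, e4]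
    have e5 : (Nat.fib (m + 1 + 1) : ℝ) = Nat.fib (m + 2) := rfl
    rw [e5, e2]
    ring

theorem o6_basis (m : ℕ) : ∀ i q : ℤ, ∃ a b : ℤ,
    i = a * Nat.fib (m + 1) + b * Nat.fib (m + 2) ∧ q = a * Nat.fib m + b * Nat.fib (m + 1) := by
  induction m with
  | zero =>
    intro i q
    exact ⟨i - q, q, by simp, by simp⟩
  | succ m ih =>
    intro i q
    obtain ⟨a, b, h1, h2⟩ := ih i q
    have e : (Nat.fib (m + 1 + 2) : ℤ) = Nat.fib (m + 1) + Nat.fib (m + 2) := by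
      exact_mod_cast Nat.fib_add_two (n := m + 1)
    have e2 : (Nat.fib (m + 1 + 1) : ℤ) = Nat.fib m + Nat.fib (m + 1) := by
      exact_mod_cast Nat.fib_add_two (n := m)
    refine ⟨b - a, a, ?_, ?_⟩
    · rw [h1, e, e2]
      ring
    · rw [h2, e2]
      ring

theorem o6_key (m : ℕ) (i a b : ℤ) (hi : i = a * Nat.fib (m + 1) + b * Nat.fib (m + 2))
    (h0 : i ≠ 0) (h1 : -(Nat.fib (m + 1) : ℤ) < i) (h2 : i < Nat.fib (m + 2))
    (hT : (a : ℝ) - b * o6_g ≤ 0) : (a : ℝ) - b * o6_g < -1 := by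
  have hg0 := o6_g_pos
  have hg1 := o6_g_lt
  have hF : (1 : ℤ) ≤ Nat.fib (m + 1) := by exact_mod_cast Nat.fib_pos.2 (Nat.succ_pos m)
  have hF2 : (Nat.fib (m + 1) : ℤ) ≤ Nat.fib (m + 2) := by exact_mod_cast Nat.fib_le_fib_succ
  rcases lt_trichotomy b 0 with hb | hb | hb
  · have ha : 1 ≤ a := by
      by_contra hc
      have ha0 : a ≤ 0 := by omega
      have hb1 : b ≤ -1 := by omega
      have h3 : a * Nat.fib (m + 1) ≤ 0 := mul_nonpos_of_nonpos_of_nonneg ha0 (by omega)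
      have h4 : b * Nat.fib (m + 2) ≤ -1 * Nat.fib (m + 2) := mul_le_mul_of_nonneg_right hb1 (by omega)
      omega
    have ha' : (1 : ℝ) ≤ a := by exact_mod_cast ha
    have hb' : (b : ℝ) < 0 := by exact_mod_cast hb
    nlinarith
  · subst hb
    have h3 : i = a * Nat.fib (m + 1) := by rw [hi]; ring
    have ha0 : (a : ℝ) ≤ 0 := by simpa using hT
    have ha1 : a ≤ 0 := by exact_mod_cast ha0
    have ha2 : a ≤ -2 := by
      by_contra hc
      have h4 : a = 0 ∨ a = -1 := by omega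
      rcases h4 with h4 | h4
      · rw [h4] at h3
        apply h0
        rw [h3]
        ring
      · rw [h4] at h3
        omega
    have ha3 : (a : ℝ) ≤ -2 := by exact_mod_cast ha2
    simp
    linarith
  · have ha : a ≤ -1 := by
      by_contra hc
      have ha0 : 0 ≤ a := by omega
      have hb1 : 1 ≤ b := by omega
      have h3 : 0 ≤ a * Nat.fib (m + 1) := mul_nonneg ha0 (by omega)
      have h4 : 1 * Nat.fib (m + 2) ≤ b * Nat.fib (m + 2) := mul_le_mul_of_nonneg_right hb1 (by omega)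
      omega
    have ha' : (a : ℝ) ≤ -1 := by exact_mod_cast ha
    have hb' : (0 : ℝ) < b := by exact_mod_cast hb
    nlinarith

theorem o6_iff (m : ℕ) (i q : ℤ)
    (h0 : i ≠ 0) (h1 : -(Nat.fib (m + 1) : ℤ) < i) (h2 : i < Nat.fib (m + 2)) :
    0 ≤ (i : ℝ) * o6_g - q ↔ 0 ≤ (i : ℝ) * o6_g - q - (-o6_g) ^ (m + 1) := by
  obtain ⟨a, b, hi, hq⟩ := o6_basis m i q
  obtain ⟨f1, f2⟩ := o6_fib m
  have hkey := o6_key m i a b hi h0 h1 h2
  have hi' : (i : ℝ) = a * Nat.fib (m + 1) + b * Nat.fib (m + 2) := by exact_mod_cast hi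
  have hq' : (q : ℝ) = a * Nat.fib m + b * Nat.fib (m + 1) := by exact_mod_cast hq
  have hx : (i : ℝ) * o6_g - q = -(-o6_g) ^ (m + 1) * (a - b * o6_g) := by
    rw [hi', hq']
    have e : ((a : ℝ) * Nat.fib (m + 1) + b * Nat.fib (m + 2)) * o6_g -
      (a * Nat.fib m + b * Nat.fib (m + 1)) = a * (Nat.fib (m + 1) * o6_g - Nat.fib m) +
        b * (Nat.fib (m + 2) * o6_g - Nat.fib (m + 1)) := by ring
    rw [e, f1, f2]
    ring
  have hx2 : (i : ℝ) * o6_g - q - (-o6_g) ^ (m + 1) = -(-o6_g) ^ (m + 1) * (a - b * o6_g + 1) := by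
    rw [hx]
    ring
  have hP : 0 < o6_g ^ (m + 1) := pow_pos o6_g_pos _
  rw [hx2, hx]
  rcases Nat.even_or_odd (m + 1) with he | ho
  · rw [he.neg_pow]
    constructor
    · intro h
      have hT : (a : ℝ) - b * o6_g ≤ 0 := by
        by_contra hc
        push Not at hc
        nlinarith
      have := hkey hT
      nlinarith
    · intro h
      have hT : (a : ℝ) - b * o6_g + 1 ≤ 0 := by
        by_contra hc
        push Not at hc
        nlinarith
      nlinarith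
  · rw [ho.neg_pow, neg_neg]
    constructor
    · intro h
      have hT : 0 ≤ (a : ℝ) - b * o6_g := by
        by_contra hc
        push Not at hc
        nlinarith
      nlinarith
    · intro h
      have hT : 0 ≤ (a : ℝ) - b * o6_g := by
        by_contra hc
        push Not at hc
        have h5 := hkey hc.le
        nlinarith
      nlinarith

theorem o6_floor (m : ℕ) (i : ℤ)
    (h0 : i ≠ 0) (h1 : -(Nat.fib (m + 1) : ℤ) < i) (h2 : i < Nat.fib (m + 2)) :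
    ⌊((i + Nat.fib (m + 1) : ℤ) : ℝ) * o6_g⌋ = ⌊(i : ℝ) * o6_g⌋ + Nat.fib m := by
  obtain ⟨f1, -⟩ := o6_fib m
  rw [Int.floor_eq_iff]
  have h3 := Int.floor_le ((i : ℝ) * o6_g)
  have h4 := Int.lt_floor_add_one ((i : ℝ) * o6_g)
  have h5 := (o6_iff m i ⌊(i : ℝ) * o6_g⌋ h0 h1 h2).1 (by linarith)
  have h6 : ¬ 0 ≤ (i : ℝ) * o6_g - ((⌊(i : ℝ) * o6_g⌋ + 1 : ℤ) : ℝ) - (-o6_g) ^ (m + 1) := by
    rw [← o6_iff m i (⌊(i : ℝ) * o6_g⌋ + 1) h0 h1 h2]
    push_cast
    push Not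
    linarith
  push_cast at h6 ⊢
  push Not at h6
  rw [add_mul, f1]
  constructor
  · linarith
  · linarith

theorem o6_floor0 (m : ℕ) (ho : Odd (m + 1)) :
    ⌊((0 + Nat.fib (m + 1) : ℤ) : ℝ) * o6_g⌋ = ⌊((0 : ℤ) : ℝ) * o6_g⌋ + Nat.fib m := by
  obtain ⟨f1, -⟩ := o6_fib m
  have hP : 0 < o6_g ^ (m + 1) := pow_pos o6_g_pos _
  have hP1 : o6_g ^ (m + 1) < 1 := pow_lt_one₀ o6_g_pos.le o6_g_lt (Nat.succ_ne_zero m)
  rw [Int.floor_eq_iff]
  rw [ho.neg_pow] at f1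
  simp only [Int.cast_zero, zero_mul, Int.floor_zero, zero_add, Int.cast_natCast]
  rw [f1]
  constructor
  · linarith
  · linarith

theorem st_O6 : ST_O6 := by
  constructor
  · intro n j hn hj hj2
    obtain ⟨m, rfl⟩ : ∃ m, n = m + 1 := ⟨n - 1, by omega⟩
    have hj2' : j + 2 ≤ Nat.fib (m + 2) := hj2
    have hF : (1 : ℤ) ≤ Nat.fib (m + 1) := by exact_mod_cast Nat.fib_pos.2 (Nat.succ_pos m)
    have g1 := o6_floor m j (by omega) (by omega) (by omega)
    have g2 := o6_floor m (j + 1) (by omega) (by omega) (by omega)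
    rw [o6_vv, o6_vv]
    have e : j + (Nat.fib (m + 1) : ℤ) + 1 = j + 1 + Nat.fib (m + 1) := by ring
    rw [e, g1, g2]
    push_cast
    ring
  · intro N
    have hN : 2 * N + 5 ≤ Nat.fib (2 * N + 5) := Nat.le_fib_self (by omega)
    have hN' : (2 * N + 5 : ℤ) ≤ Nat.fib (2 * N + 4 + 1) := by exact_mod_cast hN
    have hF2 : (Nat.fib (2 * N + 4 + 1) : ℤ) ≤ Nat.fib (2 * N + 4 + 2) := by
      exact_mod_cast Nat.fib_le_fib_succ
    have hodd : Odd (2 * N + 4 + 1) := ⟨N + 2, by ring⟩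
    have hfl : ∀ i : ℤ, |i| ≤ N + 1 →
        ⌊((i + Nat.fib (2 * N + 4 + 1) : ℤ) : ℝ) * o6_g⌋ = ⌊(i : ℝ) * o6_g⌋ + Nat.fib (2 * N + 4) := by
      intro i hi
      rw [abs_le] at hi
      by_cases h0 : i = 0
      · subst h0
        exact o6_floor0 (2 * N + 4) hodd
      · exact o6_floor (2 * N + 4) i h0 (by omega) (by omega)
    refine ⟨Nat.fib (2 * N + 4 + 1), by omega, ?_⟩
    intro k hk
    rw [abs_le] at hk
    have g1 := hfl k (abs_le.2 ⟨by omega, by omega⟩)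
    have g2 := hfl (k + 1) (abs_le.2 ⟨by omega, by omega⟩)
    rw [o6_vv, o6_vv]
    have e : k + (Nat.fib (2 * N + 4 + 1) : ℤ) + 1 = k + 1 + Nat.fib (2 * N + 4 + 1) := by ring
    rw [e, g1, g2]
    push_cast
    ring

end

end Pool.Agent.Helper36.CV
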